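import Pool.Agent.Y910.G.P3
import Pool.Agent.Y910.S.K2

/-!
The bound for monic curves.
-/

open Polynomial Finset IntermediateField

namespace Pool.Agent.Y910.G

open Pool.Agent.H322R2 Pool.Agent.Y910.S

lemma adjoin_scale (η s : ℝ) (hs : s ≠ 0) (hsQ : ∃ q : ℚ, (q : ℝ) = s) : ℚ⟮η / s⟯ = ℚ⟮η⟯ := by
  obtain ⟨q, rfl⟩ := hsQ
  have hq : ∀ K : IntermediateField ℚ ℝ, ((q : ℚ) : ℝ) ∈ K := fun K => K.algebraMap_mem q
  apply le_antisymm
  · rw [adjoin_simple_le_iff]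
    exact div_mem (mem_adjoin_simple_self ℚ η) (hq _)
  · rw [adjoin_simple_le_iff]
    have h : (η / q) * q ∈ ℚ⟮η / (q : ℝ)⟯ := mul_mem (mem_adjoin_simple_self ℚ _) (hq _)
    have h2 : (η / q) * q = η := by field_simp
    rwa [h2] at h

theorem monic_thm (d : ℕ) (hd : 1 ≤ d) :
    ∃ (C : ℕ) (c : IntermediateField ℚ ℝ → ℕ), (∀ K, 1 ≤ c K) ∧
    ∀ (T : ℕ) (_ : 2 ≤ T) (F : ℤ[X][X]), F.Monic → F.natDegree = d → Prime F →
    (∀ j, (F.coeff j).natDegree ≤ d) → pn (pn zn) F ≤ T →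
    ∀ (L : Type) [Field L] [Algebra ℚ L] (α β : L), ev α β F = 0 → Transcendental ℚ α →
    (∀ z : L, ∃ w1 ∈ Algebra.adjoin ℚ {α, β}, ∃ w2 ∈ Algebra.adjoin ℚ {α, β},
      w2 ≠ 0 ∧ w2 * z = w1) →
    ∀ x y : ℤ, ev x y F = 0 → |x| ≤ (T : ℤ) ^ C ∨
      ∃ A : ValuationSubring L, (∀ A' : ValuationSubring L,
        ((∀ q : ℚ, algebraMap ℚ L q ∈ A') ∧ ¬ (α ∈ A' ∧ β ∈ A')) ↔ A' = A) ∧
        ∃ g : ℚ[X], g.Monic ∧ Irreducible g ∧
          Nonempty (IsLocalRing.ResidueField A ≃+* AdjoinRoot g) ∧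
          ∃ η : ℝ, aeval η g = 0 ∧ (g.natDegree ≤ 2 ∨ |x| ≤ ((c ℚ⟮η⟯ * T : ℕ) : ℤ) ^ C) := by
  obtain ⟨M, hM⟩ := soft d hd
  obtain ⟨M', hM'⟩ := int_model M
  -- constants for all levels
  have hlev : ∀ N r : ℕ, ∃ (C : ℕ) (c : IntermediateField ℚ ℝ → ℝ), (∀ L, 1 ≤ c L) ∧
      (1 ≤ N → 1 ≤ r → ∀ G : ℤ[X][X], WN r N (N + 1) G → Prime G →
      Irreducible ((wl r N (N + 1) G).map (Int.castRingHom ℚ)) → (wl r N (N + 1) G).coeff 0 ≠ 0 →
      ∀ H : ℝ, 1 ≤ H → pn (pn zn) G ≤ H → ∀ a b : ℤ, ev a b G = 0 →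
      |(a : ℝ)| ≤ (2 + H) ^ C ∨ ∃ η : ℝ, evf η (wl r N (N + 1) G) = 0 ∧
        (r ≤ 2 ∨ |(a : ℝ)| ≤ (c ℚ⟮η⟯ * (2 + H)) ^ C)) := by
    intro N r
    by_cases h : 1 ≤ N ∧ 1 ≤ r
    · obtain ⟨C, c, h1, h2⟩ := one_const' r N (N + 1) h.2 h.1 (by omega)
        ((Nat.coprime_self_add_right).2 (Nat.coprime_one_right N))
      exact ⟨C, c, h1, fun _ _ => h2⟩
    · exact ⟨0, fun _ => 1, fun _ => le_rfl, fun h1 h2 => absurd ⟨h1, h2⟩ h⟩
  choose C c hc1 hc using hlev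
  obtain ⟨Cm, hCm⟩ : ∃ Cm, Cm = ∑ N ∈ range (M + 1), ∑ r ∈ range (M + 1), C N r := ⟨_, rfl⟩
  have hCle : ∀ N r, N ≤ M → r ≤ M → C N r ≤ Cm := by
    intro N r hN hr
    rw [hCm]
    refine le_trans ?_ (Finset.single_le_sum (f := fun N => ∑ r ∈ range (M + 1), C N r)
      (fun _ _ => Nat.zero_le _) (Finset.mem_range.2 (by omega : N < M + 1)))
    exact Finset.single_le_sum (f := C N) (fun _ _ => Nat.zero_le _)
      (Finset.mem_range.2 (by omega : r < M + 1))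
  obtain ⟨cm, hcm⟩ : ∃ cm : IntermediateField ℚ ℝ → ℕ, cm = fun K =>
      1 + ∑ N ∈ range (M + 1), ∑ r ∈ range (M + 1), ⌈c N r K⌉₊ := ⟨_, rfl⟩
  have hcle : ∀ N r K, N ≤ M → r ≤ M → c N r K ≤ cm K := by
    intro N r K hN hr
    have h1 : c N r K ≤ (⌈c N r K⌉₊ : ℝ) := Nat.le_ceil _
    have h2 : ⌈c N r K⌉₊ ≤ cm K := by
      rw [hcm]
      refine le_trans ?_ (Nat.le_add_left _ _)
      refine le_trans ?_ (Finset.single_le_sum (f := fun N => ∑ r ∈ range (M + 1), ⌈c N r K⌉₊)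
        (fun _ _ => Nat.zero_le _) (Finset.mem_range.2 (by omega : N < M + 1)))
      exact Finset.single_le_sum (f := fun r => ⌈c N r K⌉₊) (fun _ _ => Nat.zero_le _)
        (Finset.mem_range.2 (by omega : r < M + 1))
    have h3 : ((⌈c N r K⌉₊ : ℕ) : ℝ) ≤ cm K := by exact_mod_cast h2
    linarith
  refine ⟨M + (M' + 2) * Cm * M, cm, fun K => by rw [hcm]; show 1 ≤ 1 + _; omega, ?_⟩
  intro T hT F hm hdeg hp hdeg2 hpn L _ _ α β hF hα hgen x y hxy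
  have hT1 : 1 ≤ T := by omega
  have hTZ : (1 : ℤ) ≤ T := by exact_mod_cast hT1
  have hTR : (1 : ℝ) ≤ T := by exact_mod_cast hT1
  have hT2R : (2 : ℝ) ≤ T := by exact_mod_cast hT
  rcases hM T hT F hm hdeg hp hdeg2 hpn x y hxy with h | h
  · left
    exact h.trans (pow_le_pow_right₀ hTZ (by omega))
  obtain ⟨N, r, cc', g, Φ, Ψ, hmod, hNM, hrM, G, s, a, b, hs0, hWN, hwl, hpG, hab, hxa⟩ :=
    hM' T hT F x y hxy h
  have hirr : Irreducible ((wl r N (N + 1) G).map (Int.castRingHom ℚ)) := by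
    rw [hwl]; exact irr_scale hmod.hgi s hs0
  have hg0 : (wl r N (N + 1) G).coeff 0 ≠ 0 := by
    intro h0
    have h1 := congrArg (fun p : ℚ[X] => p.coeff 0) hwl
    simp only [coeff_map, h0, map_zero, coeff_scaleRoots] at h1
    rcases mul_eq_zero.1 h1.symm with h2 | h2
    · exact hmod.hg0 h2
    · exact pow_ne_zero _ hs0 h2
  obtain ⟨hwm, hwd⟩ := wl_monic hWN
  have hGp : Prime G := Y660.SG.edge_prime r N (N + 1) hmod.hr hmod.hN (by omega)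
    ((Nat.coprime_self_add_right).2 (Nat.coprime_one_right N)) G hWN.1 hWN.2.1 hWN.2.2
    (wl r N (N + 1) G) hwm hwd (fun l hl => wl_coeff l hl) hg0 hirr
  have hres := hc N r hmod.hN hmod.hr G hWN hGp hirr hg0 ((T : ℝ) ^ M') (one_le_pow₀ hTR) hpG a b hab
  have h2T : 2 + (T : ℝ) ^ M' ≤ (T : ℝ) ^ (M' + 2) := by
    have h1 : (1 : ℝ) ≤ (T : ℝ) ^ M' := one_le_pow₀ hTR
    rw [pow_add, sq]
    nlinarith [mul_self_nonneg ((T : ℝ) - 2)]
  have hCNr := hCle N r hNM hrM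
  -- conversion of a bound for `a`
  have key : ∀ k : ℕ, 1 ≤ k → |(a : ℝ)| ≤ ((k : ℝ) * (2 + (T : ℝ) ^ M')) ^ (C N r) →
      |x| ≤ ((k * T : ℕ) : ℤ) ^ (M + (M' + 2) * Cm * M) := by
    intro k hk ha
    have hkR : (1 : ℝ) ≤ k := by exact_mod_cast hk
    have hkT : (1 : ℝ) ≤ k * T := one_le_mul_of_one_le_of_one_le hkR hTR
    have h1 : |(a : ℝ)| ≤ ((k : ℝ) * T) ^ ((M' + 2) * Cm) := by
      refine ha.trans ?_
      have h3 : (k : ℝ) * (2 + (T : ℝ) ^ M') ≤ ((k : ℝ) * T) ^ (M' + 2) := by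
        rw [mul_pow]
        apply mul_le_mul (le_self_pow₀ hkR (by omega)) h2T (by positivity) (by positivity)
      calc ((k : ℝ) * (2 + (T : ℝ) ^ M')) ^ (C N r) ≤ (((k : ℝ) * T) ^ (M' + 2)) ^ (C N r) :=
            pow_le_pow_left₀ (by positivity) h3 _
        _ = ((k : ℝ) * T) ^ ((M' + 2) * C N r) := by rw [← pow_mul]
        _ ≤ _ := pow_le_pow_right₀ hkT (Nat.mul_le_mul_left _ hCNr)
    have h2 : (|x| : ℝ) ≤ |(a : ℝ)| ^ M := by exact_mod_cast hxa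
    have h3 : (|x| : ℝ) ≤ ((k : ℝ) * T) ^ (M + (M' + 2) * Cm * M) := by
      refine h2.trans ((pow_le_pow_left₀ (abs_nonneg _) h1 _).trans ?_)
      rw [← pow_mul]
      exact pow_le_pow_right₀ hkT (by omega)
    exact_mod_cast h3
  rcases hres with h1 | ⟨η, hη0, h1⟩
  · left
    have h2 := key 1 le_rfl (by rw [Nat.cast_one, one_mul]; exact h1)
    rwa [one_mul] at h2
  · right
    obtain ⟨A, hA1, hA2⟩ := place hmod α β hF hα hgen
    have hsR : (s : ℝ) ≠ 0 := by exact_mod_cast hs0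
    refine ⟨A, hA1, g, hmod.hgm, hmod.hgi, hA2, η / s, ?_, ?_⟩
    · -- a root of `g`
      have h2 : aeval η (scaleRoots g s) = 0 := by
        rw [← hwl]
        have h3 : aeval η ((wl r N (N + 1) G).map (algebraMap ℤ ℚ)) = aeval η (wl r N (N + 1) G) :=
          aeval_map_algebraMap ℚ η (wl r N (N + 1) G)
        have h4 : aeval η (wl r N (N + 1) G) = 0 := by
          rw [aeval_def, ← hη0, evf, coe_eval₂RingHom]
          congr 1
        exact h3.trans h4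
      have h5 := scaleRoots_eval₂_mul (p := g) (f := algebraMap ℚ ℝ) (r := η / s) (s := s)
      have h6 : (algebraMap ℚ ℝ) s * (η / s) = η := by
        show (s : ℝ) * (η / s) = η
        field_simp
      rw [h6] at h5
      rw [aeval_def] at h2
      rw [h2] at h5
      rcases mul_eq_zero.1 h5.symm with h7 | h7
      · exfalso
        exact pow_ne_zero _ hsR h7
      · rw [aeval_def]; exact h7
    · rw [adjoin_scale η s hsR ⟨s, rfl⟩, hmod.hgr]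
      rcases h1 with h1 | h1
      · exact Or.inl h1
      · right
        apply key (cm ℚ⟮η⟯) (by rw [hcm]; show 1 ≤ 1 + _; omega)
        refine h1.trans (pow_le_pow_left₀ ?_ ?_ _)
        · have := hc1 N r ℚ⟮η⟯
          positivity
        · exact mul_le_mul_of_nonneg_right (hcle N r _ hNM hrM) (by positivity)

end Pool.Agent.Y910.G
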