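import Pool.Agent.Y910.G.P4
import Pool.Agent.Y852.FFRed

/-!
The bound for all irreducible plane curves.
-/

open Polynomial Finset IntermediateField

namespace Pool.Agent.Y910.G

open Pool.Agent.H322R2 Pool.Agent.Y910.S

/-- numerical part of the reduction -/
lemma num_red (d C len c T : ℕ) (hd : 1 ≤ d) (hlen : 1 ≤ len) (hc : 1 ≤ c)
    (hT : T = 2 * (len * (1 + d) ^ d) ^ d) (K : ℕ) (hK : K = (d + 1) * (2 * (1 + d) ^ d)) :
    (d + 1) * (T * ((c * T) ^ C)) ≤ (K * c * len) ^ (d * (C + 1) + 1) := by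
  have h1 : c * T ≤ (K * c * len) ^ d := by
    have h2 : c * T ≤ (c * 2 * (len * (1 + d) ^ d)) ^ d := by
      rw [hT, mul_pow (c * 2)]
      calc c * (2 * (len * (1 + d) ^ d) ^ d) = (c * 2) * (len * (1 + d) ^ d) ^ d := by ring
        _ ≤ (c * 2) ^ d * (len * (1 + d) ^ d) ^ d :=
            Nat.mul_le_mul_right _ (Nat.le_self_pow (by omega) _)
    refine h2.trans (Nat.pow_le_pow_left ?_ _)
    rw [hK]
    calc c * 2 * (len * (1 + d) ^ d) = 1 * (2 * (1 + d) ^ d) * c * len := by ring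
      _ ≤ (d + 1) * (2 * (1 + d) ^ d) * c * len := by
        apply Nat.mul_le_mul_right
        apply Nat.mul_le_mul_right
        exact Nat.mul_le_mul_right _ (by omega)
  have h3 : T ≤ c * T := Nat.le_mul_of_pos_left _ (by omega)
  have h4 : d + 1 ≤ K * c * len := by
    rw [hK]
    have h5 : 1 ≤ 2 * (1 + d) ^ d := Nat.mul_pos (by norm_num) (by positivity)
    calc d + 1 = (d + 1) * 1 * 1 * 1 := by ring
      _ ≤ (d + 1) * (2 * (1 + d) ^ d) * c * len :=
        Nat.mul_le_mul (Nat.mul_le_mul (Nat.mul_le_mul le_rfl h5) hc) hlen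
  calc (d + 1) * (T * ((c * T) ^ C)) ≤ (K * c * len) * ((c * T) * ((c * T) ^ C)) := by
        apply Nat.mul_le_mul h4
        exact Nat.mul_le_mul_right _ h3
    _ = (K * c * len) * (c * T) ^ (C + 1) := by rw [pow_succ' (c * T)]
    _ ≤ (K * c * len) * ((K * c * len) ^ d) ^ (C + 1) :=
        Nat.mul_le_mul_left _ (Nat.pow_le_pow_left h1 _)
    _ = (K * c * len) ^ (d * (C + 1) + 1) := by rw [← pow_mul, pow_succ' (K * c * len)]

lemma len_pos {F : MvPolynomial (Fin 2) ℤ} (hF : F ≠ 0) : 1 ≤ len F := by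
  obtain ⟨m, hm⟩ := MvPolynomial.support_nonempty.2 hF
  unfold len
  have h1 : (F.coeff m).natAbs ≤ ∑ m ∈ F.support, (F.coeff m).natAbs :=
    Finset.single_le_sum (f := fun m => (F.coeff m).natAbs) (fun _ _ => Nat.zero_le _) hm
  have h2 : (F.coeff m).natAbs ≠ 0 := by
    rw [Int.natAbs_ne_zero]; exact MvPolynomial.mem_support_iff.1 hm
  omega

lemma totalDegree_pos (F : MvPolynomial (Fin 2) ℤ)
    (hirr : Irreducible (MvPolynomial.map (Int.castRingHom ℚ) F)) : 1 ≤ F.totalDegree := by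
  by_contra hcon
  have h0 : F.totalDegree = 0 := by omega
  rw [MvPolynomial.totalDegree_eq_zero_iff_eq_C] at h0
  rw [h0, MvPolynomial.map_C] at hirr
  by_cases h1 : (Int.castRingHom ℚ) (MvPolynomial.coeff 0 F) = 0
  · rw [h1, map_zero] at hirr
    exact hirr.ne_zero rfl
  · exact hirr.not_isUnit ((isUnit_iff_ne_zero.2 h1).map MvPolynomial.C)

theorem main (d : ℕ) : ∃ (C : ℕ) (c : IntermediateField ℚ ℝ → ℕ),
    ∀ F : MvPolynomial (Fin 2) ℤ, F.totalDegree = d →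
    Irreducible (MvPolynomial.map (Int.castRingHom ℚ) F) →
    ∀ (L : Type) [Field L] [Algebra ℚ L] (π : MvPolynomial (Fin 2) ℚ →ₐ[ℚ] L),
    (∀ w, π w = 0 ↔ MvPolynomial.map (Int.castRingHom ℚ) F ∣ w) →
    (∀ z : L, ∃ w1 w2, π w2 ≠ 0 ∧ π w2 * z = π w1) →
    ∀ x y : ℤ, MvPolynomial.eval ![x, y] F = 0 →
      (x.natAbs ≤ (C * len F) ^ C ∧ y.natAbs ≤ (C * len F) ^ C) ∨
      ∃ A : ValuationSubring L, (∀ A' : ValuationSubring L,
        ((∀ q : ℚ, algebraMap ℚ L q ∈ A') ∧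
          ¬ (π (MvPolynomial.X 0) ∈ A' ∧ π (MvPolynomial.X 1) ∈ A')) ↔ A' = A) ∧
        ∃ g : ℚ[X], g.Monic ∧ Irreducible g ∧
          Nonempty (IsLocalRing.ResidueField A ≃+* AdjoinRoot g) ∧
          ∃ η : ℝ, aeval η g = 0 ∧ (g.natDegree ≤ 2 ∨
            (x.natAbs ≤ (c ℚ⟮η⟯ * len F) ^ C ∧ y.natAbs ≤ (c ℚ⟮η⟯ * len F) ^ C)) := by
  by_cases hd : 1 ≤ d
  swap
  · refine ⟨0, fun _ => 0, fun F hF hirr => ?_⟩
    have := totalDegree_pos F hirr
    omega
  obtain ⟨C, c, hc1, hc⟩ := monic_thm d hd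
  obtain ⟨K, hK⟩ : ∃ K, K = (d + 1) * (2 * (1 + d) ^ d) := ⟨_, rfl⟩
  refine ⟨K + (d * (C + 1) + 1), fun E => K * c E, ?_⟩
  intro F hFd hirr L _ _ π hker hsurj x y hxy
  have hF0 : F ≠ 0 := by
    rintro rfl
    rw [map_zero] at hirr
    exact hirr.ne_zero rfl
  obtain ⟨u, hu, hcu⟩ := exists_u F hF0
  have hcl : lc F u ≠ 0 := hcu
  have hFd1 : 1 ≤ F.totalDegree := by omega
  have hlen1 : 1 ≤ len F := len_pos hF0
  have hlenR : (1 : ℝ) ≤ len F := by exact_mod_cast hlen1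
  obtain ⟨T, hT⟩ : ∃ T : ℕ, T = 2 * (len F * (1 + d) ^ d) ^ d := ⟨_, rfl⟩
  have hBpos : 1 ≤ len F * (1 + d) ^ d := Nat.mul_pos hlen1 (by positivity)
  have hT2 : 2 ≤ T := by
    rw [hT]
    have := Nat.one_le_pow d _ hBpos
    omega
  -- the monic model
  have hpn2 : pn (pn zn) (F2 F u) ≤ (len F : ℝ) * (1 + d) ^ d := by
    refine (pn_toB_le u F).trans ?_
    rw [hFd]
    apply mul_le_mul_of_nonneg_left _ (by linarith)
    apply pow_le_pow_left₀ (by positivity)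
    have : (u : ℝ) ≤ d := by rw [← hFd]; exact_mod_cast hu
    linarith
  have hB1 : (1 : ℝ) ≤ (len F : ℝ) * (1 + d) ^ d := by exact_mod_cast hBpos
  have hpnG' : pn (pn zn) (GG F u) ≤ ((len F : ℝ) * (1 + d) ^ d) ^ d := by
    rw [← hFd]
    rw [← hFd] at hpn2 hB1
    exact pn_GG hcl hB1 hpn2 hFd1
  have hpnG : pn (pn zn) (GG F u) ≤ T := by
    refine hpnG'.trans ?_
    rw [hT]
    push_cast
    have : 0 ≤ ((len F : ℝ) * (1 + d) ^ d) ^ d := by positivity
    linarith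
  obtain ⟨a, ha⟩ : ∃ a : ℤ, a = y - u * x := ⟨_, rfl⟩
  have hzero : ev a (lc F u * x) (GG F u) = 0 := by
    rw [ev_GG hcl hFd1]
    have h1 := ev_toB (S := ℤ) x a (shE ℤ u F)
    have h2 : MvPolynomial.eval₂ (Int.castRingHom ℤ) ![x, a] (shE ℤ u F)
        = MvPolynomial.eval ![x, a] (shE ℤ u F) := by
      rw [MvPolynomial.eval, MvPolynomial.coe_eval₂Hom]
      congr 1
    rw [h2, eval_shE] at h1
    have h3 : (![(![x, a] : Fin 2 → ℤ) 0, (![x, a] : Fin 2 → ℤ) 1 + u * (![x, a] : Fin 2 → ℤ) 0]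
        : Fin 2 → ℤ) = ![x, y] := by
      ext i
      fin_cases i
      · simp
      · simp [ha]
    rw [h3, hxy] at h1
    rw [F2, h1, mul_zero]
  obtain ⟨hev, htr, hgen, hpl⟩ := Y852.FFRed.ff_reduce F hirr u hcl hFd1 π hker hsurj _ _ rfl rfl
  have hTR : (1 : ℝ) ≤ T := by exact_mod_cast (by omega : 1 ≤ T)
  have hbb := abs_b_le (GG_monic hcl) (GG_natDegree hcl) (GG_TD hcl) hTR hpnG a (lc F u * x) hzero
  have hlc1 : 1 ≤ |((lc F u : ℤ) : ℝ)| := by
    have : 1 ≤ |lc F u| := Int.one_le_abs hcl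
    exact_mod_cast this
  have hxb : |(x : ℝ)| ≤ T * max 1 |(a : ℝ)| := by
    refine le_trans ?_ hbb
    push_cast
    rw [abs_mul]
    exact le_mul_of_one_le_left (abs_nonneg _) hlc1
  -- conversion
  have key : ∀ k : ℕ, 1 ≤ k → |a| ≤ ((k * T : ℕ) : ℤ) ^ C →
      x.natAbs ≤ (K * k * len F) ^ (K + (d * (C + 1) + 1)) ∧
      y.natAbs ≤ (K * k * len F) ^ (K + (d * (C + 1) + 1)) := by
    intro k hk hak
    obtain ⟨W, hW⟩ : ∃ W : ℕ, W = (k * T) ^ C := ⟨_, rfl⟩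
    have hW1 : 1 ≤ W := by rw [hW]; exact Nat.one_le_pow _ _ (Nat.mul_pos hk (by omega))
    have hWR : (1 : ℝ) ≤ W := by exact_mod_cast hW1
    have haR : |(a : ℝ)| ≤ W := by
      rw [hW]
      exact_mod_cast hak
    have hmax : max 1 |(a : ℝ)| ≤ W := max_le hWR haR
    have hx : |(x : ℝ)| ≤ T * W := hxb.trans (mul_le_mul_of_nonneg_left hmax (by linarith))
    have hy : |(y : ℝ)| ≤ (d + 1) * (T * W) := by
      have h1 : (y : ℝ) = a + u * x := by rw [ha]; push_cast; ring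
      rw [h1]
      refine (abs_add_le _ _).trans ?_
      rw [abs_mul, Nat.abs_cast]
      have h2 : (u : ℝ) ≤ d := by rw [← hFd]; exact_mod_cast hu
      have h3 : (u : ℝ) * |(x : ℝ)| ≤ d * (T * W) :=
        mul_le_mul h2 hx (abs_nonneg _) (by positivity)
      have h4 : (W : ℝ) ≤ T * W := le_mul_of_one_le_left (by linarith) hTR
      linarith
    have hx' : |(x : ℝ)| ≤ (d + 1) * (T * W) := by
      refine hx.trans ?_
      apply le_mul_of_one_le_left (by positivity)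
      have : (0 : ℝ) ≤ d := by positivity
      linarith
    have hnum := num_red d C (len F) k T hd hlen1 hk hT K hK
    rw [← hW] at hnum
    have hbase : 1 ≤ K * k * len F := by
      rw [hK]
      have h5 : 1 ≤ 2 * (1 + d) ^ d := Nat.mul_pos (by norm_num) (by positivity)
      calc 1 = 1 * 1 * 1 * 1 := by ring
        _ ≤ (d + 1) * (2 * (1 + d) ^ d) * k * len F :=
          Nat.mul_le_mul (Nat.mul_le_mul (Nat.mul_le_mul (by omega) h5) hk) hlen1
    have hfin : (d + 1) * (T * W) ≤ (K * k * len F) ^ (K + (d * (C + 1) + 1)) :=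
      hnum.trans (Nat.pow_le_pow_right hbase (by omega))
    constructor
    · have h1 : (x.natAbs : ℝ) ≤ ((((d + 1) * (T * W)) : ℕ) : ℝ) := by
        rw [Nat.cast_natAbs, Int.cast_abs]; push_cast; exact hx'
      exact (by exact_mod_cast h1 : x.natAbs ≤ (d + 1) * (T * W)).trans hfin
    · have h1 : (y.natAbs : ℝ) ≤ ((((d + 1) * (T * W)) : ℕ) : ℝ) := by
        rw [Nat.cast_natAbs, Int.cast_abs]; push_cast; exact hy
      exact (by exact_mod_cast h1 : y.natAbs ≤ (d + 1) * (T * W)).trans hfin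
  have hGTD := GG_TD hcl
  rcases hc T hT2 (GG F u) (GG_monic hcl) (by rw [GG_natDegree hcl, hFd]) (GG_prime hcl hFd1 hirr)
    (fun j => by rw [← hFd]; exact (hGTD.2 j).trans (Nat.sub_le _ _)) hpnG L _ _ hev htr hgen
    a (lc F u * x) hzero with h | ⟨A, hA, g, hgm, hgi, hres, η, hη, h⟩
  · left
    obtain ⟨h1, h2⟩ := key 1 le_rfl (by rw [one_mul]; exact h)
    rw [mul_one] at h1 h2
    have h3 : (K * len F) ^ (K + (d * (C + 1) + 1))
        ≤ ((K + (d * (C + 1) + 1)) * len F) ^ (K + (d * (C + 1) + 1)) :=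
      Nat.pow_le_pow_left (Nat.mul_le_mul_right _ (by omega)) _
    exact ⟨h1.trans h3, h2.trans h3⟩
  · right
    refine ⟨A, ?_, g, hgm, hgi, hres, η, hη, ?_⟩
    · intro A'
      rw [← hA A']
      apply and_congr_right
      intro hQ
      exact not_congr (hpl A' hQ)
    · rcases h with h | h
      · exact Or.inl h
      · right
        exact key (c ℚ⟮η⟯) (hc1 _) h

end Pool.Agent.Y910.G
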