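import Mathlib

/-!
Sequences of rational numbers of bounded height and their germs.
-/

open Polynomial Filter

namespace Pool.Agent.Y910.G

/-- the hyper-rational numbers -/
abbrev Om : Type := Filter.Germ (Filter.hyperfilter ℕ : Filter ℕ) ℚ

/-- the class of a sequence -/
noncomputable def cr : (ℕ → ℚ) →+* Om := Filter.Germ.coeRingHom _

/-- eventually along the ultrafilter -/
def Ev (p : ℕ → Prop) : Prop := ∀ᶠ n in (Filter.hyperfilter ℕ : Filter ℕ), p n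

lemma cr_apply (f : ℕ → ℚ) : cr f = (f : Om) := rfl

lemma cr_eq {f g : ℕ → ℚ} : cr f = cr g ↔ Ev fun n => f n = g n := Filter.Germ.coe_eq

lemma cr_lt {f g : ℕ → ℚ} : cr f < cr g ↔ Ev fun n => f n < g n := Filter.Germ.coe_lt

lemma cr_abs (f : ℕ → ℚ) : |cr f| = cr (fun n => |f n|) := by
  rw [Filter.Germ.abs_def]; rfl

lemma cr_surj (x : Om) : ∃ f, cr f = x := by
  refine Filter.Germ.inductionOn x fun f => ⟨f, rfl⟩

lemma cr_eq_zero {f : ℕ → ℚ} : cr f = 0 ↔ Ev fun n => f n = 0 := by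
  rw [← map_zero cr, cr_eq]; rfl

lemma Ev.and {p q : ℕ → Prop} (hp : Ev p) (hq : Ev q) : Ev fun n => p n ∧ q n :=
  Filter.Eventually.and hp hq

lemma Ev.mono {p q : ℕ → Prop} (hp : Ev p) (h : ∀ n, p n → q n) : Ev q :=
  Filter.Eventually.mono hp h

lemma Ev.of_forall {p : ℕ → Prop} (h : ∀ n, p n) : Ev p := Filter.Eventually.of_forall h

lemma ev_not {p : ℕ → Prop} : (Ev fun n => ¬ p n) ↔ ¬ Ev p := Ultrafilter.eventually_not

lemma ev_or {p q : ℕ → Prop} : (Ev fun n => p n ∨ q n) ↔ Ev p ∨ Ev q := Ultrafilter.eventually_or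

lemma ev_ge (m : ℕ) : Ev fun n => m ≤ n := by
  have h : ∀ᶠ n : ℕ in (Filter.cofinite : Filter ℕ), m ≤ n := by
    rw [Nat.cofinite_eq_atTop]; exact Filter.eventually_ge_atTop m
  exact Filter.hyperfilter_le_cofinite h

lemma not_ev_false : ¬ Ev fun _ => False := by
  intro h
  have := h.exists
  obtain ⟨_, h⟩ := this
  exact h

lemma Ev.exists {p : ℕ → Prop} (h : Ev p) : ∃ n, p n := Filter.Eventually.exists h

/-- finite pigeonhole -/
lemma ev_pigeon {p : ℕ → ℕ → Prop} (m : ℕ) (h : Ev fun n => ∃ i ≤ m, p i n) :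
    ∃ i ≤ m, Ev (p i) := by
  induction m with
  | zero =>
    refine ⟨0, le_rfl, h.mono fun n hn => ?_⟩
    obtain ⟨i, hi, hp⟩ := hn
    rwa [Nat.le_zero.1 hi] at hp
  | succ m ih =>
    have h2 : Ev fun n => (∃ i ≤ m, p i n) ∨ p (m + 1) n := by
      refine h.mono fun n hn => ?_
      obtain ⟨i, hi, hp⟩ := hn
      rcases Nat.lt_or_ge i (m + 1) with h | h
      · exact Or.inl ⟨i, by omega, hp⟩
      · right
        have : i = m + 1 := by omega
        rwa [this] at hp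
    rcases ev_or.1 h2 with h3 | h3
    · obtain ⟨i, hi, hp⟩ := ih h3
      exact ⟨i, by omega, hp⟩
    · exact ⟨m + 1, le_rfl, h3⟩

/-- rational of height at most `B` -/
def Ht (B : ℕ) (x : ℚ) : Prop :=
  ∃ (a : ℤ) (b : ℕ), 0 < b ∧ b ≤ B ∧ |a| ≤ (B : ℤ) ∧ x = (a : ℚ) / (b : ℚ)

lemma Ht.mono {B B' : ℕ} {x : ℚ} (h : Ht B x) (hB : B ≤ B') : Ht B' x := by
  obtain ⟨a, b, h1, h2, h3, h4⟩ := h
  exact ⟨a, b, h1, h2.trans hB, h3.trans (by exact_mod_cast hB), h4⟩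

lemma Ht.zero {B : ℕ} (hB : 1 ≤ B) : Ht B 0 := ⟨0, 1, one_pos, hB, by simp, by simp⟩

lemma Ht.one {B : ℕ} (hB : 1 ≤ B) : Ht B 1 :=
  ⟨1, 1, one_pos, hB, by rw [abs_one]; exact_mod_cast hB, by simp⟩

lemma Ht.int {B : ℕ} (hB : 1 ≤ B) (z : ℤ) (hz : |z| ≤ (B : ℤ)) : Ht B (z : ℚ) :=
  ⟨z, 1, one_pos, hB, hz, by simp⟩

lemma Ht.neg {B : ℕ} {x : ℚ} (h : Ht B x) : Ht B (-x) := by
  obtain ⟨a, b, h1, h2, h3, h4⟩ := h
  exact ⟨-a, b, h1, h2, by rwa [abs_neg], by rw [h4]; push_cast; ring⟩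

lemma Ht.mul {B C : ℕ} {x y : ℚ} (h : Ht B x) (h' : Ht C y) : Ht (B * C) (x * y) := by
  obtain ⟨a, b, h1, h2, h3, h4⟩ := h
  obtain ⟨a', b', h1', h2', h3', h4'⟩ := h'
  refine ⟨a * a', b * b', Nat.mul_pos h1 h1', Nat.mul_le_mul h2 h2', ?_, ?_⟩
  · rw [abs_mul]; push_cast
    exact mul_le_mul h3 h3' (abs_nonneg _) (by positivity)
  · rw [h4, h4']; push_cast; field_simp

lemma Ht.add {B C : ℕ} {x y : ℚ} (h : Ht B x) (h' : Ht C y) : Ht (2 * (B * C)) (x + y) := by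
  obtain ⟨a, b, h1, h2, h3, h4⟩ := h
  obtain ⟨a', b', h1', h2', h3', h4'⟩ := h'
  refine ⟨a * b' + a' * b, b * b', Nat.mul_pos h1 h1', (Nat.mul_le_mul h2 h2').trans (by omega),
    ?_, ?_⟩
  · push_cast
    refine (abs_add_le _ _).trans ?_
    rw [abs_mul, abs_mul]
    have e1 : |a| * |(b' : ℤ)| ≤ (B : ℤ) * C := by
      rw [Nat.abs_cast]
      exact mul_le_mul h3 (by exact_mod_cast h2') (by positivity) (by positivity)
    have e2 : |a'| * |(b : ℤ)| ≤ (B : ℤ) * C := by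
      rw [Nat.abs_cast, mul_comm]
      exact mul_le_mul (by exact_mod_cast h2) h3' (by positivity) (by positivity)
    linarith
  · rw [h4, h4']
    have hb : (b : ℚ) ≠ 0 := by positivity
    have hb' : (b' : ℚ) ≠ 0 := by positivity
    push_cast; field_simp

lemma Ht.inv {B : ℕ} (hB : 1 ≤ B) {x : ℚ} (h : Ht B x) : Ht B (x⁻¹) := by
  obtain ⟨a, b, h1, h2, h3, h4⟩ := h
  have hb : (b : ℚ) ≠ 0 := by positivity
  rcases lt_trichotomy a 0 with ha | ha | ha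
  · obtain ⟨c, hc⟩ := Int.eq_ofNat_of_zero_le (show 0 ≤ -a by omega)
    have hac : a = -(c : ℤ) := by omega
    have hc0 : 0 < c := by omega
    have hc' : (c : ℚ) ≠ 0 := by positivity
    rw [abs_of_neg ha, hc] at h3
    refine ⟨-(b : ℤ), c, hc0, by exact_mod_cast h3, ?_, ?_⟩
    · rw [abs_neg, Nat.abs_cast]; exact_mod_cast h2
    · rw [h4, hac]; push_cast; field_simp
  · rw [h4, ha]; simpa using Ht.zero hB
  · obtain ⟨c, hc⟩ := Int.eq_ofNat_of_zero_le ha.le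
    have hc0 : 0 < c := by omega
    have hc' : (c : ℚ) ≠ 0 := by positivity
    rw [abs_of_pos ha, hc] at h3
    refine ⟨(b : ℤ), c, hc0, by exact_mod_cast h3, ?_, ?_⟩
    · rw [Nat.abs_cast]; exact_mod_cast h2
    · rw [h4, hc]; push_cast; field_simp

end Pool.Agent.Y910.G
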