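import Pool.Agent.Y910.G.G1

/-!
The ring of sequences of polynomially bounded height and the field of their germs.
-/

open Polynomial Filter

namespace Pool.Agent.Y910.G

/-- the scale -/
structure Sca where
  T : ℕ → ℕ
  hT : ∀ n, 2 ≤ T n

namespace Sca

variable (S : Sca)

lemma one_le (n m : ℕ) : 1 ≤ S.T n ^ m := Nat.one_le_pow _ _ (by have := S.hT n; omega)

lemma two_le (n : ℕ) : 2 ≤ S.T n ^ 1 := by rw [pow_one]; exact S.hT n

/-- bounded height -/
def Bdd (f : ℕ → ℚ) : Prop := ∃ m : ℕ, ∀ n, Ht (S.T n ^ m) (f n)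

lemma Bdd.mul {f g : ℕ → ℚ} (hf : S.Bdd f) (hg : S.Bdd g) : S.Bdd (f * g) := by
  obtain ⟨m, hm⟩ := hf
  obtain ⟨m', hm'⟩ := hg
  refine ⟨m + m', fun n => ?_⟩
  rw [pow_add]
  exact (hm n).mul (hm' n)

lemma Bdd.add {f g : ℕ → ℚ} (hf : S.Bdd f) (hg : S.Bdd g) : S.Bdd (f + g) := by
  obtain ⟨m, hm⟩ := hf
  obtain ⟨m', hm'⟩ := hg
  refine ⟨1 + (m + m'), fun n => ?_⟩
  refine ((hm n).add (hm' n)).mono ?_
  rw [pow_add, pow_add]
  exact Nat.mul_le_mul_right _ (S.two_le n)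

lemma Bdd.neg {f : ℕ → ℚ} (hf : S.Bdd f) : S.Bdd (-f) := by
  obtain ⟨m, hm⟩ := hf
  exact ⟨m, fun n => (hm n).neg⟩

lemma Bdd.inv {f : ℕ → ℚ} (hf : S.Bdd f) : S.Bdd (f⁻¹) := by
  obtain ⟨m, hm⟩ := hf
  exact ⟨m, fun n => (hm n).inv (S.one_le n m)⟩

/-- the ring of bounded sequences -/
def KK : Subring (ℕ → ℚ) where
  carrier := {f | S.Bdd f}
  zero_mem' := ⟨0, fun _ => Ht.zero (by simp)⟩
  one_mem' := ⟨0, fun _ => Ht.one (by simp)⟩
  add_mem' := fun hf hg => Bdd.add S hf hg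
  mul_mem' := fun hf hg => Bdd.mul S hf hg
  neg_mem' := fun hf => Bdd.neg S hf

/-- the field of germs of bounded sequences -/
noncomputable def kk : Subfield Om where
  carrier := {x | ∃ f, S.Bdd f ∧ cr f = x}
  zero_mem' := ⟨0, S.KK.zero_mem, map_zero _⟩
  one_mem' := ⟨1, S.KK.one_mem, map_one _⟩
  add_mem' := by
    rintro _ _ ⟨f, hf, rfl⟩ ⟨g, hg, rfl⟩
    exact ⟨f + g, Bdd.add S hf hg, map_add _ _ _⟩
  mul_mem' := by
    rintro _ _ ⟨f, hf, rfl⟩ ⟨g, hg, rfl⟩
    exact ⟨f * g, Bdd.mul S hf hg, map_mul _ _ _⟩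
  neg_mem' := by
    rintro _ ⟨f, hf, rfl⟩
    exact ⟨-f, Bdd.neg S hf, map_neg _ _⟩
  inv_mem' := by
    rintro _ ⟨f, hf, rfl⟩
    exact ⟨f⁻¹, Bdd.inv S hf, rfl⟩

lemma mem_kk {x : Om} : x ∈ S.kk ↔ ∃ f, S.Bdd f ∧ cr f = x := Iff.rfl

/-- from bounded sequences to germs -/
noncomputable def ga : S.KK →+* S.kk :=
  (cr.comp S.KK.subtype).codRestrict S.kk (fun f => ⟨f.1, f.2, rfl⟩)

lemma ga_coe (f : S.KK) : ((S.ga f : S.kk) : Om) = cr (f : ℕ → ℚ) := rfl

lemma ga_surj (x : S.kk) : ∃ f : S.KK, S.ga f = x := by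
  obtain ⟨f, hf, h⟩ := x.2
  exact ⟨⟨f, hf⟩, Subtype.ext h⟩

/-- evaluation at an index -/
def rho (n : ℕ) : S.KK →+* ℚ := (Pi.evalRingHom (fun _ : ℕ => ℚ) n).comp S.KK.subtype

lemma rho_apply (n : ℕ) (f : S.KK) : S.rho n f = (f : ℕ → ℚ) n := rfl

/-- the composite to the germs -/
noncomputable def gam : S.KK →+* Om := cr.comp S.KK.subtype

lemma gam_apply (f : S.KK) : S.gam f = cr (f : ℕ → ℚ) := rfl

lemma gam_eq : S.gam = (S.kk.subtype).comp S.ga := rfl

lemma gam_eq_zero {f : S.KK} : S.gam f = 0 ↔ Ev fun n => S.rho n f = 0 := by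
  rw [gam_apply, cr_eq_zero]; rfl

end Sca

section e2

variable {R U W : Type*} [CommRing R] [CommRing U] [CommRing W]

/-- evaluation of a polynomial in two variables (inner variable at `x`, outer at `y`) -/
noncomputable def e2 (f : R →+* U) (x y : U) : R[X][X] →+* U :=
  eval₂RingHom (eval₂RingHom f x) y

@[simp] lemma e2_X (f : R →+* U) (x y : U) : e2 f x y X = y := by simp [e2]

@[simp] lemma e2_CX (f : R →+* U) (x y : U) : e2 f x y (C X) = x := by simp [e2]

@[simp] lemma e2_CC (f : R →+* U) (x y : U) (r : R) : e2 f x y (C (C r)) = f r := by simp [e2]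

lemma e2_C (f : R →+* U) (x y : U) (p : R[X]) : e2 f x y (C p) = eval₂RingHom f x p := by simp [e2]

lemma hom2_ext {φ ψ : R[X][X] →+* U} (h0 : ∀ r, φ (C (C r)) = ψ (C (C r)))
    (h1 : φ (C X) = ψ (C X)) (h2 : φ X = ψ X) : φ = ψ := by
  apply Polynomial.ringHom_ext
  · intro p
    have : (φ.comp C) = (ψ.comp C) := by
      apply Polynomial.ringHom_ext
      · intro r; exact h0 r
      · exact h1
    exact congrArg (fun g : R[X] →+* U => g p) this
  · exact h2

lemma map_e2 (g : U →+* W) (f : R →+* U) (x y : U) (p : R[X][X]) :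
    g (e2 f x y p) = e2 (g.comp f) (g x) (g y) p := by
  have : g.comp (e2 f x y) = e2 (g.comp f) (g x) (g y) := by
    apply hom2_ext <;> simp
  exact congrArg (fun h : R[X][X] →+* W => h p) this

/-- map on coefficients -/
noncomputable def m2 (g : R →+* U) : R[X][X] →+* U[X][X] := mapRingHom (mapRingHom g)

@[simp] lemma m2_X (g : R →+* U) : m2 g X = X := by simp [m2]

@[simp] lemma m2_CX (g : R →+* U) : m2 g (C X) = C X := by simp [m2]

@[simp] lemma m2_CC (g : R →+* U) (r : R) : m2 g (C (C r)) = C (C (g r)) := by simp [m2]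

lemma e2_m2 (g : R →+* U) (f : U →+* W) (x y : W) (p : R[X][X]) :
    e2 f x y (m2 g p) = e2 (f.comp g) x y p := by
  have : (e2 f x y).comp (m2 g) = e2 (f.comp g) x y := by
    apply hom2_ext <;> simp
  exact congrArg (fun h : R[X][X] →+* W => h p) this

/-- the embedding of constants -/
noncomputable def cc (R : Type*) [CommRing R] : R →+* R[X][X] := (C : R[X] →+* R[X][X]).comp C

@[simp] lemma cc_apply (r : R) : cc R r = C (C r) := rfl

/-- substitution -/
lemma e2_sub (f : R →+* U) (x y : U) (a b p : R[X][X]) :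
    e2 f x y (e2 (cc R) a b p) = e2 f (e2 f x y a) (e2 f x y b) p := by
  rw [map_e2]
  congr 1
  have : (e2 f x y).comp (cc R) = f := by
    ext r; simp
  rw [this]

lemma m2_sub (g : R →+* U) (a b p : R[X][X]) :
    m2 g (e2 (cc R) a b p) = e2 (cc U) (m2 g a) (m2 g b) (m2 g p) := by
  rw [map_e2, e2_m2]
  congr 1
  have : (m2 g).comp (cc R) = (cc U).comp g := by
    ext r; simp
  rw [this]

end e2

namespace Sca

variable (S : Sca)

/-- every element of `k[u,v]` comes from a polynomial over the bounded sequences -/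
lemma adjoin_lift (u v : Om) (w : Om) (hw : w ∈ Algebra.adjoin S.kk {u, v}) :
    ∃ W : S.KK[X][X], e2 S.gam u v W = w := by
  induction hw using Algebra.adjoin_induction with
  | mem x hx =>
    rcases hx with h | h
    · exact ⟨C X, by rw [h]; simp⟩
    · rw [Set.mem_singleton_iff] at h
      exact ⟨X, by rw [h]; simp⟩
  | algebraMap r =>
    obtain ⟨f, hf⟩ := S.ga_surj r
    refine ⟨C (C f), ?_⟩
    rw [e2_CC, ← hf]; rfl
  | add x y _ _ h1 h2 =>
    obtain ⟨A, hA⟩ := h1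
    obtain ⟨B, hB⟩ := h2
    exact ⟨A + B, by rw [map_add, hA, hB]⟩
  | mul x y _ _ h1 h2 =>
    obtain ⟨A, hA⟩ := h1
    obtain ⟨B, hB⟩ := h2
    exact ⟨A * B, by rw [map_mul, hA, hB]⟩

lemma adjoin_lift1 (u : Om) (w : Om) (hw : w ∈ Algebra.adjoin S.kk {u}) :
    ∃ W : S.KK[X], eval₂RingHom S.gam u W = w := by
  induction hw using Algebra.adjoin_induction with
  | mem x hx =>
    rw [Set.mem_singleton_iff] at hx
    exact ⟨X, by rw [hx]; simp⟩
  | algebraMap r =>
    obtain ⟨f, hf⟩ := S.ga_surj r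
    refine ⟨C f, ?_⟩
    rw [← hf]; simp; rfl
  | add x y _ _ h1 h2 =>
    obtain ⟨A, hA⟩ := h1
    obtain ⟨B, hB⟩ := h2
    exact ⟨A + B, by rw [map_add, hA, hB]⟩
  | mul x y _ _ h1 h2 =>
    obtain ⟨A, hA⟩ := h1
    obtain ⟨B, hB⟩ := h2
    exact ⟨A * B, by rw [map_mul, hA, hB]⟩

/-- an integral element satisfies a monic equation over the bounded sequences -/
lemma integral_lift (u w : Om) (hw : IsIntegral (Algebra.adjoin S.kk {u}) w) :
    ∃ W : S.KK[X][X], W.Monic ∧ e2 S.gam u w W = 0 := by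
  obtain ⟨p, hpm, hp⟩ := hw
  choose L hL using fun x : Algebra.adjoin S.kk {u} => S.adjoin_lift1 u x.1 x.2
  refine ⟨X ^ p.natDegree + ∑ i ∈ Finset.range p.natDegree, C (L (p.coeff i)) * X ^ i, ?_, ?_⟩
  · apply monic_X_pow_add
    rw [degree_lt_iff_coeff_zero]
    intro m hm
    rw [finsetSum_coeff]
    apply Finset.sum_eq_zero
    intro i hi
    rw [Finset.mem_range] at hi
    rw [coeff_C_mul_X_pow, if_neg (by omega)]
  · rw [eval₂_eq_sum_range, Finset.sum_range_succ, hpm.coeff_natDegree, map_one, one_mul] at hp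
    rw [map_add, map_sum, map_pow, e2_X, ← hp, add_comm]
    congr 1
    apply Finset.sum_congr rfl
    intro i _
    rw [map_mul, map_pow, e2_X, e2_C, hL]
    rfl

end Sca

end Pool.Agent.Y910.G
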