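import Pool.Agent.Y910.G.G2
import Pool.Agent.Y910.S.H5

/-!
Germs of integer points; divisibility from vanishing.
-/

open Polynomial Filter

namespace Pool.Agent.Y910.G

open Pool.Agent.H322R2 Pool.Agent.Y910.S

/-- coefficients `ℤ → ℚ` -/
noncomputable def qz : ℤ[X][X] →+* ℚ[X][X] := m2 (Int.castRingHom ℚ)

lemma ev_eq_e2 {U : Type*} [CommRing U] (x y : U) (p : ℤ[X][X]) :
    ev x y p = e2 (Int.castRingHom U) x y p := by
  have : ev x y = e2 (Int.castRingHom U) x y := by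
    apply hom2_ext
    · intro r; simp
    · rw [e2_CX, ev_apply]; simp
    · rw [e2_X, ev_apply]; simp
  rw [this]

lemma e2_qz {U : Type*} [CommRing U] [Algebra ℚ U] (x y : U) (p : ℤ[X][X]) :
    e2 (algebraMap ℚ U) x y (qz p) = ev x y p := by
  rw [qz, e2_m2, ev_eq_e2]
  have : (algebraMap ℚ U).comp (Int.castRingHom ℚ) = Int.castRingHom U := RingHom.ext_int _ _
  rw [this]

lemma e2_id_qz (x y : ℤ) (p : ℤ[X][X]) :
    e2 (RingHom.id ℚ) (x : ℚ) (y : ℚ) (qz p) = ((ev x y p : ℤ) : ℚ) := by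
  rw [qz, e2_m2]
  have h := map_ev (Int.castRingHom ℚ) x y p
  simp only [eq_intCast] at h
  rw [h, ev_eq_e2]
  rfl

/-- polynomials with bounded denominators -/
def Cle (B : ℝ) (K : ℕ) (w : ℚ[X][X]) : Prop :=
  ∃ (D : ℕ) (V : ℤ[X][X]), 0 < D ∧ (D : ℝ) ≤ B ∧ V.natDegree ≤ K ∧ pn (pn zn) V ≤ B ∧
    qz V = C (C (D : ℚ)) * w

lemma Cle.mono {B B' : ℝ} {K K' : ℕ} {w : ℚ[X][X]} (h : Cle B K w) (hB : B ≤ B') (hK : K ≤ K') :
    Cle B' K' w := by
  obtain ⟨D, V, h1, h2, h3, h4, h5⟩ := h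
  exact ⟨D, V, h1, h2.trans hB, h3.trans hK, h4.trans hB, h5⟩

lemma Cle.add {B B' : ℝ} {K K' : ℕ} {w w' : ℚ[X][X]} (h : Cle B K w) (h' : Cle B' K' w') :
    Cle (2 * (B * B')) (max K K') (w + w') := by
  obtain ⟨D, V, h1, h2, h3, h4, h5⟩ := h
  obtain ⟨D', V', h1', h2', h3', h4', h5'⟩ := h'
  have hD : (1 : ℝ) ≤ D := by exact_mod_cast h1
  have hD' : (1 : ℝ) ≤ D' := by exact_mod_cast h1'
  have hB0 : 0 ≤ B := by linarith
  have hB'0 : 0 ≤ B' := by linarith
  have hBB : 0 ≤ B * B' := mul_nonneg hB0 hB'0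
  refine ⟨D * D', (D' : ℤ[X][X]) * V + (D : ℤ[X][X]) * V', Nat.mul_pos h1 h1', ?_, ?_, ?_, ?_⟩
  · push_cast
    have := mul_le_mul h2 h2' (by positivity) hB0
    linarith
  · refine (natDegree_add_le _ _).trans ?_
    apply max_le_max
    · refine (natDegree_mul_le).trans ?_
      rw [natDegree_natCast, zero_add]; exact h3
    · refine (natDegree_mul_le).trans ?_
      rw [natDegree_natCast, zero_add]; exact h3'
  · refine (map_add_le_add (pn (pn zn)) _ _).trans ?_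
    have e1 : pn (pn zn) ((D' : ℤ[X][X]) * V) ≤ D' * pn (pn zn) V := N_natCast_mul_le _ _ _
    have e2 : pn (pn zn) ((D : ℤ[X][X]) * V') ≤ D * pn (pn zn) V' := N_natCast_mul_le _ _ _
    have e3 : (D' : ℝ) * pn (pn zn) V ≤ B' * B := mul_le_mul h2' h4 (apply_nonneg _ _) hB'0
    have e4 : (D : ℝ) * pn (pn zn) V' ≤ B * B' := mul_le_mul h2 h4' (apply_nonneg _ _) hB0
    linarith
  · rw [map_add, map_mul, map_mul, h5, h5', map_natCast qz D', map_natCast qz D]
    have e1 : ((D : ℕ) : ℚ[X][X]) = C (C (D : ℚ)) := by simp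
    have e2 : ((D' : ℕ) : ℚ[X][X]) = C (C (D' : ℚ)) := by simp
    rw [e1, e2]
    push_cast
    rw [map_mul, map_mul]
    ring

lemma Cle.monomial {B : ℕ} {z : ℚ} (hz : Ht B z) (i j : ℕ) :
    Cle B j (Polynomial.monomial j (Polynomial.monomial i z)) := by
  obtain ⟨a, b, h1, h2, h3, h4⟩ := hz
  have hb : (b : ℚ) ≠ 0 := by positivity
  refine ⟨b, Polynomial.monomial j (Polynomial.monomial i a), h1, by exact_mod_cast h2,
    natDegree_monomial_le _, ?_, ?_⟩
  · rw [pn_monomial, pn_monomial, zn_apply]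
    exact_mod_cast h3
  · rw [qz, m2, coe_mapRingHom, map_monomial, coe_mapRingHom, map_monomial, C_mul_monomial,
      C_mul_monomial, h4]
    congr 2
    simp only [eq_intCast]
    field_simp

end Pool.Agent.Y910.G
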