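import Pool.Agent.Y910.G.G3

/-!
Germs of integer points; divisibility from vanishing.
-/

open Polynomial Filter

namespace Pool.Agent.Y910.G

open Pool.Agent.H322R2 Pool.Agent.Y910.S

lemma Sca.cle (S : Sca) (W : S.KK[X][X]) :
    ∃ m K : ℕ, ∀ n, Cle ((S.T n : ℝ) ^ m) K (m2 (S.rho n) W) := by
  have hT : ∀ n, (1 : ℝ) ≤ S.T n := fun n => by
    have := S.hT n
    exact_mod_cast (by omega : 1 ≤ S.T n)
  have hT2 : ∀ n, (2 : ℝ) ≤ S.T n := fun n => by exact_mod_cast S.hT n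
  have hadd : ∀ p q : S.KK[X][X], (∃ m K : ℕ, ∀ n, Cle ((S.T n : ℝ) ^ m) K (m2 (S.rho n) p)) →
      (∃ m K : ℕ, ∀ n, Cle ((S.T n : ℝ) ^ m) K (m2 (S.rho n) q)) →
      (∃ m K : ℕ, ∀ n, Cle ((S.T n : ℝ) ^ m) K (m2 (S.rho n) (p + q))) := by
    rintro p q ⟨m, K, h⟩ ⟨m', K', h'⟩
    refine ⟨1 + (m + m'), max K K', fun n => ?_⟩
    rw [map_add]
    refine ((h n).add (h' n)).mono ?_ le_rfl
    rw [pow_add, pow_add, pow_one]
    exact mul_le_mul_of_nonneg_right (hT2 n) (by positivity)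
  induction W using Polynomial.induction_on' with
  | add p q hp hq => exact hadd p q hp hq
  | monomial j p =>
    induction p using Polynomial.induction_on' with
    | add p q hp hq => rw [map_add]; exact hadd _ _ hp hq
    | monomial i c =>
      obtain ⟨m, hm⟩ := c.2
      refine ⟨m, j, fun n => ?_⟩
      have h := Cle.monomial (hm n) i j
      have e : m2 (S.rho n) (monomial j (monomial i c))
          = monomial j (monomial i ((c : ℕ → ℚ) n)) := by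
        rw [m2, coe_mapRingHom, map_monomial, coe_mapRingHom, map_monomial]
        rfl
      rw [e]
      push_cast at h
      exact h

/-- a sequence of integer points on curves -/
structure Dat where
  S : Sca
  d : ℕ
  F : ℕ → ℤ[X][X]
  x : ℕ → ℤ
  y : ℕ → ℤ
  hd : 1 ≤ d
  hm : ∀ n, (F n).Monic
  hdeg : ∀ n, (F n).natDegree = d
  hp : ∀ n, Prime (F n)
  hdeg2 : ∀ n j, ((F n).coeff j).natDegree ≤ d
  hpn : ∀ n, pn (pn zn) (F n) ≤ S.T n
  hxy : ∀ n, ev (x n) (y n) (F n) = 0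
  hbig : ∀ n, (S.T n : ℤ) ^ n < |x n|

namespace Dat

variable (Q : Dat)

/-- the point -/
noncomputable def a : Om := cr fun n => (Q.x n : ℚ)
noncomputable def b : Om := cr fun n => (Q.y n : ℚ)

lemma big (m : ℕ) : Ev fun n => (Q.S.T n : ℤ) ^ m < |Q.x n| := by
  refine (ev_ge m).mono fun n hn => lt_of_le_of_lt ?_ (Q.hbig n)
  have h1 : (1 : ℤ) ≤ Q.S.T n := by
    have := Q.S.hT n
    exact_mod_cast (by omega : 1 ≤ Q.S.T n)
  exact pow_le_pow_right₀ h1 hn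

lemma ev_cr (S : Sca) (u v : ℕ → ℚ) (W : S.KK[X][X]) :
    e2 S.gam (cr u) (cr v) W = cr fun n => e2 (S.rho n) (u n) (v n) W := by
  have : e2 S.gam (cr u) (cr v) = cr.comp (RingHom.comp (RingHom.pi fun n =>
      e2 (S.rho n) (u n) (v n)) (RingHom.id _)) := by
    apply hom2_ext
    · intro r
      rw [e2_CC, RingHom.comp_apply, RingHom.comp_apply, RingHom.id_apply, Sca.gam_apply]
      congr 1
      funext n
      rw [RingHom.pi_apply, e2_CC]
      rfl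
    · rw [e2_CX, RingHom.comp_apply, RingHom.comp_apply, RingHom.id_apply]
      congr 1
      funext n
      rw [RingHom.pi_apply, e2_CX]
    · rw [e2_X, RingHom.comp_apply, RingHom.comp_apply, RingHom.id_apply]
      congr 1
      funext n
      rw [RingHom.pi_apply, e2_X]
  rw [this]
  rfl

lemma ev_ab (W : Q.S.KK[X][X]) :
    e2 Q.S.gam Q.a Q.b W = cr fun n => e2 (RingHom.id ℚ) (Q.x n : ℚ) (Q.y n : ℚ)
      (m2 (Q.S.rho n) W) := by
  rw [a, b, ev_cr]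
  congr 1
  funext n
  rw [e2_m2]
  rfl

/-- division by a constant -/
lemma dvd_of_C {F w : ℚ[X][X]} (D : ℚ) (hD : D ≠ 0) (h : F ∣ C (C D) * w) : F ∣ w := by
  have h2 := Dvd.dvd.mul_left h (C (C D⁻¹))
  have e : (C (C D⁻¹) : ℚ[X][X]) * (C (C D) * w) = w := by
    rw [← mul_assoc, ← map_mul, ← map_mul, inv_mul_cancel₀ hD]
    simp
  rwa [e] at h2

theorem dvd_of_zero (W : Q.S.KK[X][X]) (h : e2 Q.S.gam Q.a Q.b W = 0) :
    Ev fun n => qz (Q.F n) ∣ m2 (Q.S.rho n) W := by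
  rw [ev_ab, cr_eq_zero] at h
  obtain ⟨m, K, hc⟩ := Q.S.cle W
  choose D V h1 h2 h3 h4 h5 using hc
  by_contra hcon
  rw [← ev_not] at hcon
  -- a common exponent
  obtain ⟨e, he⟩ : ∃ e : ℕ, ∀ n, (Q.d.factorial : ℝ) * ((Q.S.T n : ℝ) ^ m *
      (1 + (Q.S.T n : ℝ)) ^ K) ^ Q.d ≤ (Q.S.T n : ℝ) ^ e := by
    obtain ⟨f, hf⟩ : ∃ f : ℕ, (Q.d.factorial : ℝ) ≤ 2 ^ f :=
      ⟨Q.d.factorial, by exact_mod_cast Nat.lt_two_pow_self.le⟩
    refine ⟨f + (m + 2 * K) * Q.d, fun n => ?_⟩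
    have hT2 : (2 : ℝ) ≤ Q.S.T n := by exact_mod_cast Q.S.hT n
    have e1 : (Q.d.factorial : ℝ) ≤ (Q.S.T n : ℝ) ^ f :=
      hf.trans (pow_le_pow_left₀ (by norm_num) hT2 _)
    have e2 : (1 + (Q.S.T n : ℝ)) ^ K ≤ (Q.S.T n : ℝ) ^ (2 * K) := by
      rw [pow_mul]
      apply pow_le_pow_left₀ (by positivity)
      nlinarith
    rw [pow_add, pow_mul, pow_add]
    apply mul_le_mul e1 _ (by positivity) (by positivity)
    apply pow_le_pow_left₀ (by positivity)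
    exact mul_le_mul_of_nonneg_left e2 (by positivity)
  obtain ⟨n, hn1, hn2, hn3⟩ := ((hcon.and (h.and (Q.big e)))).exists
  have hxne : Q.x n ≠ 0 := by
    intro h0
    rw [h0, abs_zero] at hn3
    have : (0 : ℤ) ≤ (Q.S.T n : ℤ) ^ e := by positivity
    linarith
  have hD0 : (D n : ℚ) ≠ 0 := by
    have := h1 n
    positivity
  have hV0 : ev (Q.x n) (Q.y n) (V n) = 0 := by
    have e1 := e2_id_qz (Q.x n) (Q.y n) (V n)
    rw [h5, map_mul, e2_CC, hn2, mul_zero] at e1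
    exact_mod_cast e1.symm
  have hnd : ¬ Q.F n ∣ V n := by
    intro hdv
    apply hn1
    apply dvd_of_C (D n : ℚ) hD0
    rw [← h5]
    exact map_dvd qz hdv
  have h6 := small_gen (Q.F n) (V n) Q.d K (by have := Q.hd; omega) (Q.hm n) (Q.hdeg n) (Q.hp n)
    (Q.x n) (Q.y n) hxne (Q.hxy n) hnd (h3 n) hV0
  have h7 : (Q.d.factorial : ℝ) * (pn (pn zn) (V n) * (1 + pn (pn zn) (Q.F n)) ^ K) ^ Q.d
      ≤ Q.d.factorial * ((Q.S.T n : ℝ) ^ m * (1 + (Q.S.T n : ℝ)) ^ K) ^ Q.d := by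
    have e1 : 0 ≤ pn (pn zn) (V n) := apply_nonneg _ _
    have e2 : 0 ≤ pn (pn zn) (Q.F n) := apply_nonneg _ _
    have e3 := h4 n
    have e4 := Q.hpn n
    gcongr
  have h8 : (|Q.x n| : ℝ) ≤ (Q.S.T n : ℝ) ^ e := h6.trans (h7.trans (he n))
  have h9 : |Q.x n| ≤ (Q.S.T n : ℤ) ^ e := by exact_mod_cast h8
  omega

end Dat

end Pool.Agent.Y910.G
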