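import Pool.Agent.Y910.G.G4
import Pool.Agent.Y68.Part1

/-!
The hypotheses of the algebraic reduction for the germ of the points.
-/

open Polynomial Filter

namespace Pool.Agent.Y910.G

open Pool.Agent.H322R2 Pool.Agent.Y910.S

lemma Ht.abs_le {B : ℕ} {x : ℚ} (h : Ht B x) : |x| ≤ B := by
  obtain ⟨a, b, h1, h2, h3, h4⟩ := h
  have hb : (1 : ℚ) ≤ b := by exact_mod_cast h1
  rw [h4, abs_div, Nat.abs_cast, div_le_iff₀ (by linarith)]
  have h5 : |(a : ℚ)| ≤ B := by exact_mod_cast h3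
  have h6 : (0 : ℚ) ≤ B := by positivity
  nlinarith

namespace Dat

variable (Q : Dat)

lemma T_one (n : ℕ) : (1 : ℚ) ≤ Q.S.T n := by
  have := Q.S.hT n
  exact_mod_cast (by omega : 1 ≤ Q.S.T n)

lemma ha : ∀ x ∈ Q.S.kk, x < |Q.a| := by
  rintro _ ⟨f, ⟨m, hm⟩, rfl⟩
  rw [a, cr_abs, cr_lt]
  refine (Q.big m).mono fun n hn => ?_
  have h1 := (hm n).abs_le
  have h2 : ((Q.S.T n ^ m : ℕ) : ℚ) < |(Q.x n : ℚ)| := by exact_mod_cast hn
  have h3 := le_abs_self (f n)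
  linarith

/-- the coefficients of the curves as bounded sequences -/
noncomputable def cF (i j : ℕ) : Q.S.KK :=
  ⟨fun n => ((((Q.F n).coeff j).coeff i : ℤ) : ℚ), 1, fun n => by
    apply Ht.int (Q.S.one_le n 1)
    have h1 := coeff_le_pn (pn zn) (Q.F n) j
    have h2 := coeff_le_pn zn ((Q.F n).coeff j) i
    rw [zn_apply] at h2
    have h3 : (|((Q.F n).coeff j).coeff i| : ℝ) ≤ Q.S.T n := h2.trans (h1.trans (Q.hpn n))
    rw [pow_one]
    exact_mod_cast h3⟩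

/-- the curve over the bounded sequences -/
noncomputable def FK : Q.S.KK[X][X] :=
  X ^ Q.d + ∑ j ∈ Finset.range Q.d, C (∑ i ∈ Finset.range (Q.d + 1), C (Q.cF i j) * X ^ i) * X ^ j

lemma FK_monic : Q.FK.Monic := by
  apply monic_X_pow_add
  rw [degree_lt_iff_coeff_zero]
  intro m hm
  rw [finsetSum_coeff]
  apply Finset.sum_eq_zero
  intro i hi
  rw [Finset.mem_range] at hi
  rw [coeff_C_mul_X_pow, if_neg (by omega)]

lemma m2_FK (n : ℕ) : m2 (Q.S.rho n) Q.FK = qz (Q.F n) := by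
  have h1 : Q.F n = X ^ Q.d + ∑ j ∈ Finset.range Q.d,
      C (∑ i ∈ Finset.range (Q.d + 1), C (((Q.F n).coeff j).coeff i) * X ^ i) * X ^ j := by
    have h2 := (Q.F n).as_sum_range_C_mul_X_pow
    rw [Q.hdeg n, Finset.sum_range_succ] at h2
    have h3 : (Q.F n).coeff Q.d = 1 := by
      rw [← Q.hdeg n]; exact (Q.hm n)
    rw [h3, map_one, one_mul, add_comm] at h2
    conv_lhs => rw [h2]
    congr 1
    apply Finset.sum_congr rfl
    intro j _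
    congr 2
    exact ((Q.F n).coeff j).as_sum_range_C_mul_X_pow' (by have := Q.hdeg2 n j; omega)
  conv_rhs => rw [h1]
  rw [FK, map_add, map_add, map_pow, map_pow, map_sum, map_sum, m2_X]
  have hX : qz X = X := m2_X _
  rw [hX]
  congr 1
  apply Finset.sum_congr rfl
  intro j _
  rw [map_mul, map_mul, map_pow, map_pow, m2_X, hX]
  congr 1
  rw [map_sum, map_sum, map_sum, map_sum]
  apply Finset.sum_congr rfl
  intro i _
  rw [map_mul, map_mul, map_pow, map_pow, map_mul, map_mul, map_pow, map_pow, m2_CX, m2_CC]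
  have hCX : qz (C X) = C X := m2_CX _
  rw [hCX, qz, m2_CC]
  rfl

lemma ev_FK : e2 Q.S.gam Q.a Q.b Q.FK = 0 := by
  rw [ev_ab, cr_eq_zero]
  apply Ev.of_forall
  intro n
  rw [m2_FK, e2_id_qz, Q.hxy n]
  simp

lemma hb : IsIntegral (Algebra.adjoin Q.S.kk {Q.a}) Q.b := by
  obtain ⟨f, hf⟩ : ∃ f : Q.S.KK[X] →+* Algebra.adjoin Q.S.kk {Q.a}, f = eval₂RingHom
    ((algebraMap Q.S.kk (Algebra.adjoin Q.S.kk {Q.a})).comp Q.S.ga)
    ⟨Q.a, Algebra.subset_adjoin rfl⟩ := ⟨_, rfl⟩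
  refine ⟨Q.FK.map f, Q.FK_monic.map f, ?_⟩
  rw [eval₂_map]
  have h1 : (algebraMap (Algebra.adjoin Q.S.kk {Q.a}) Om).comp f = eval₂RingHom Q.S.gam Q.a := by
    apply Polynomial.ringHom_ext
    · intro r
      rw [hf, RingHom.comp_apply, coe_eval₂RingHom, eval₂_C, coe_eval₂RingHom, eval₂_C]
      rfl
    · rw [hf, RingHom.comp_apply, coe_eval₂RingHom, eval₂_X, coe_eval₂RingHom, eval₂_X]
      rfl
  rw [h1]
  exact Q.ev_FK

lemma hR : ∀ φ ∈ Algebra.adjoin Q.S.kk {Q.a, Q.b}, (∀ x ∈ Q.S.kk, 0 < x → |φ| < x) → φ = 0 := by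
  intro φ hφ hsm
  obtain ⟨W, hW⟩ := Q.S.adjoin_lift Q.a Q.b φ hφ
  obtain ⟨m, K, hc⟩ := Q.S.cle W
  choose D V h1 h2 h3 h4 h5 using hc
  have hmem : cr (fun n => ((Q.S.T n : ℚ) ^ m)⁻¹) ∈ Q.S.kk := by
    refine ⟨_, ⟨m, fun n => ?_⟩, rfl⟩
    apply Ht.inv (Q.S.one_le n m)
    have := Ht.int (Q.S.one_le n m) ((Q.S.T n ^ m : ℕ) : ℤ) (by rw [Nat.abs_cast])
    push_cast at this
    exact this
  have hpos : 0 < cr (fun n => ((Q.S.T n : ℚ) ^ m)⁻¹) := by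
    rw [← map_zero cr, cr_lt]
    apply Ev.of_forall
    intro n
    have := Q.T_one n
    show (0 : ℚ) < _
    positivity
  have h6 := hsm _ hmem hpos
  rw [← hW, ev_ab, cr_abs, cr_lt] at h6
  rw [← hW, ev_ab, cr_eq_zero]
  refine h6.mono fun n hn => ?_
  have hT := Q.T_one n
  have hDpos : (0 : ℚ) < D n := by exact_mod_cast h1 n
  obtain ⟨w, hw⟩ : ∃ w, w = e2 (RingHom.id ℚ) (Q.x n : ℚ) (Q.y n : ℚ) (m2 (Q.S.rho n) W) := ⟨_, rfl⟩
  rw [← hw] at hn ⊢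
  have h7 : (D n : ℚ) * w = ((ev (Q.x n) (Q.y n) (V n) : ℤ) : ℚ) := by
    rw [← e2_id_qz, h5, map_mul, e2_CC, hw]; rfl
  have h8 : |(D n : ℚ) * w| < 1 := by
    rw [abs_mul, abs_of_pos hDpos]
    have h9 : (D n : ℚ) ≤ (Q.S.T n : ℚ) ^ m := by exact_mod_cast h2 n
    have h10 : (0 : ℚ) < (Q.S.T n : ℚ) ^ m := by positivity
    calc (D n : ℚ) * |w| ≤ (Q.S.T n : ℚ) ^ m * |w| := mul_le_mul_of_nonneg_right h9 (abs_nonneg _)
      _ < (Q.S.T n : ℚ) ^ m * ((Q.S.T n : ℚ) ^ m)⁻¹ := mul_lt_mul_of_pos_left hn h10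
      _ = 1 := mul_inv_cancel₀ h10.ne'
  rw [h7] at h8
  have h9 : |ev (Q.x n) (Q.y n) (V n)| < 1 := by exact_mod_cast h8
  have h10 : ev (Q.x n) (Q.y n) (V n) = 0 := Int.abs_lt_one_iff.1 h9
  rw [h10, Int.cast_zero] at h7
  rcases mul_eq_zero.1 h7 with h | h
  · exact absurd h hDpos.ne'
  · exact h

end Dat

end Pool.Agent.Y910.G
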