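import Pool.Agent.Y910.G.G5
import Pool.Agent.Y360.FactorHeight

/-!
Irreducibility passes from germs to almost all members of the sequence.
-/

open Polynomial Filter

namespace Pool.Agent.Y910.G

open Y360.FactorHeight

lemma Ht.pow_int {B e : ℕ} {x : ℚ} (h : ∃ (a : ℤ) (b : ℕ), 0 < b ∧ b ≤ B ^ e ∧ |a| ≤ (B : ℤ) ^ e ∧
    x = (a : ℚ) / (b : ℚ)) : Ht (B ^ e) x := by
  obtain ⟨a, b, h1, h2, h3, h4⟩ := h
  exact ⟨a, b, h1, h2, by exact_mod_cast h3, h4⟩

/-- factorisation of a monic reducible polynomial -/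
lemma monic_factor {g : ℚ[X]} (hg : g.Monic) (hdeg : 1 ≤ g.natDegree) (h : ¬ Irreducible g) :
    ∃ g1 g2 : ℚ[X], g1.Monic ∧ g2.Monic ∧ g = g1 * g2 ∧ 1 ≤ g1.natDegree ∧ 1 ≤ g2.natDegree := by
  have hg1 : g ≠ 1 := by
    rintro rfl
    simp at hdeg
  rw [hg.irreducible_iff_natDegree'] at h
  push Not at h
  obtain ⟨f1, f2, h1, h2, h3, h4⟩ := h hg1
  rw [Finset.mem_Ioc] at h4
  have h5 : g.natDegree = f1.natDegree + f2.natDegree := by rw [← h3, h1.natDegree_mul h2]
  exact ⟨f1, f2, h1, h2, h3.symm, by omega, by omega⟩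

theorem irr_lift (S : Sca) (r : ℕ) (hr : 1 ≤ r) (g : S.KK[X]) (hgm : g.Monic)
    (hgr : g.natDegree = r) (hirr : Irreducible (g.map S.ga)) :
    Ev fun n => Irreducible (g.map (S.rho n)) := by
  by_contra hcon
  rw [← ev_not] at hcon
  have hgn : ∀ n, (g.map (S.rho n)).Monic ∧ (g.map (S.rho n)).natDegree = r := fun n =>
    ⟨hgm.map _, by rw [hgm.natDegree_map, hgr]⟩
  obtain ⟨e, he⟩ := factor_height r
  -- a common height bound
  obtain ⟨m, hm⟩ : ∃ m : ℕ, ∀ n l, Ht (S.T n ^ m) ((g.map (S.rho n)).coeff l) := by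
    choose m hm using fun l => (g.coeff l).2
    refine ⟨∑ l ∈ Finset.range (r + 1), m l, fun n l => ?_⟩
    rw [coeff_map, S.rho_apply]
    rcases Nat.lt_or_ge l (r + 1) with hl | hl
    · refine (hm l n).mono (Nat.pow_le_pow_right (by have := S.hT n; omega) ?_)
      exact Finset.single_le_sum (f := m) (fun _ _ => Nat.zero_le _) (Finset.mem_range.2 hl)
    · rw [coeff_eq_zero_of_natDegree_lt (by omega)]
      exact Ht.zero (S.one_le n _)
  have h1 : Ev fun n => ∃ i ≤ r, ∃ g1 g2 : ℚ[X], g1.Monic ∧ g2.Monic ∧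
      g.map (S.rho n) = g1 * g2 ∧ 1 ≤ i ∧ i + g2.natDegree = r ∧ 1 ≤ g2.natDegree ∧
      g1.natDegree = i := by
    refine hcon.mono fun n hn => ?_
    obtain ⟨g1, g2, e1, e2, e3, e4, e5⟩ := monic_factor (hgn n).1 (by rw [(hgn n).2]; exact hr) hn
    have e6 : g1.natDegree + g2.natDegree = r := by
      rw [← e1.natDegree_mul e2, ← e3, (hgn n).2]
    exact ⟨g1.natDegree, by omega, g1, g2, e1, e2, e3, e4, e6, e5, rfl⟩
  obtain ⟨i, hi, h2⟩ := ev_pigeon r h1
  -- choose the factors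
  have h3 : ∀ n, ∃ g1 g2 : ℚ[X], ((∃ g1 g2 : ℚ[X], g1.Monic ∧ g2.Monic ∧
      g.map (S.rho n) = g1 * g2 ∧ 1 ≤ i ∧ i + g2.natDegree = r ∧ 1 ≤ g2.natDegree ∧
      g1.natDegree = i) → (g1.Monic ∧ g2.Monic ∧
      g.map (S.rho n) = g1 * g2 ∧ 1 ≤ i ∧ i + g2.natDegree = r ∧ 1 ≤ g2.natDegree ∧
      g1.natDegree = i)) ∧ (∀ l, Ht (S.T n ^ (m * e + e)) (g1.coeff l)) ∧
      (∀ l, Ht (S.T n ^ (m * e + e)) (g2.coeff l)) := by
    intro n
    by_cases hn : ∃ g1 g2 : ℚ[X], g1.Monic ∧ g2.Monic ∧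
      g.map (S.rho n) = g1 * g2 ∧ 1 ≤ i ∧ i + g2.natDegree = r ∧ 1 ≤ g2.natDegree ∧
      g1.natDegree = i
    · obtain ⟨g1, g2, e1, e2, e3, e4, e5, e6, e7⟩ := hn
      have hB : 2 ≤ S.T n ^ (m + 1) := by
        calc 2 ≤ S.T n := S.hT n
          _ = S.T n ^ 1 := (pow_one _).symm
          _ ≤ _ := Nat.pow_le_pow_right (by have := S.hT n; omega) (by omega)
      have hh : ∀ l, ∃ (a : ℤ) (b : ℕ), 0 < b ∧ b ≤ S.T n ^ (m + 1) ∧
          |a| ≤ ((S.T n ^ (m + 1) : ℕ) : ℤ) ∧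
          (g.map (S.rho n)).coeff l = (a : ℚ) / (b : ℚ) := fun l =>
        (hm n l).mono (Nat.pow_le_pow_right (by have := S.hT n; omega) (by omega))
      have hpw : (S.T n ^ (m + 1)) ^ e = S.T n ^ (m * e + e) := by rw [← pow_mul]; ring
      refine ⟨g1, g2, fun _ => ⟨e1, e2, e3, e4, e5, e6, e7⟩, fun l => ?_, fun l => ?_⟩
      · rw [← hpw]
        exact Ht.pow_int (he _ hB _ g1 g2 (hgn n).1 (hgn n).2 e1 e2 e3 hh l)
      · rw [← hpw]
        exact Ht.pow_int (he _ hB _ g2 g1 (hgn n).1 (hgn n).2 e2 e1 (by rw [e3, mul_comm]) hh l)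
    · refine ⟨0, 0, fun h => absurd h hn, fun l => ?_, fun l => ?_⟩
      · rw [coeff_zero]; exact Ht.zero (S.one_le n _)
      · rw [coeff_zero]; exact Ht.zero (S.one_le n _)
  choose g1 g2 h4 h5 h6 using h3
  have h7 : Ev fun n => (g1 n).Monic ∧ (g2 n).Monic ∧
      g.map (S.rho n) = g1 n * g2 n ∧ 1 ≤ i ∧ i + (g2 n).natDegree = r ∧ 1 ≤ (g2 n).natDegree ∧
      (g1 n).natDegree = i := h2.mono fun n hn => h4 n hn
  obtain ⟨n0, hn0⟩ := h7.exists
  have hi1 : 1 ≤ i := hn0.2.2.2.1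
  obtain ⟨j, hj⟩ : ∃ j, i + j = r := ⟨(g2 n0).natDegree, hn0.2.2.2.2.1⟩
  have hj1 : 1 ≤ j := by
    have := hn0.2.2.2.2.1
    have := hn0.2.2.2.2.2.1
    omega
  -- lift
  obtain ⟨c1, hc1⟩ : ∃ c1 : ℕ → S.KK, ∀ l n, (c1 l : ℕ → ℚ) n = (g1 n).coeff l :=
    ⟨fun l => ⟨fun n => (g1 n).coeff l, m * e + e, fun n => h5 n l⟩, fun _ _ => rfl⟩
  obtain ⟨c2, hc2⟩ : ∃ c2 : ℕ → S.KK, ∀ l n, (c2 l : ℕ → ℚ) n = (g2 n).coeff l :=
    ⟨fun l => ⟨fun n => (g2 n).coeff l, m * e + e, fun n => h6 n l⟩, fun _ _ => rfl⟩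
  obtain ⟨G1, hG1⟩ : ∃ G1 : S.kk[X], G1 = ∑ l ∈ Finset.range (i + 1), monomial l (S.ga (c1 l)) :=
    ⟨_, rfl⟩
  obtain ⟨G2, hG2⟩ : ∃ G2 : S.kk[X], G2 = ∑ l ∈ Finset.range (j + 1), monomial l (S.ga (c2 l)) :=
    ⟨_, rfl⟩
  have hz : ∀ (f : S.KK) (z : ℚ), (Ev fun n => (f : ℕ → ℚ) n = z) → (S.ga f : Om) = cr fun _ => z := by
    intro f z hf
    rw [S.ga_coe, cr_eq]; exact hf
  have hcG1 : ∀ l, G1.coeff l = S.ga (c1 l) := by
    intro l
    rw [hG1, finsetSum_coeff]
    by_cases hl : l ≤ i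
    · rw [Finset.sum_eq_single l]
      · rw [coeff_monomial, if_pos rfl]
      · intro b _ hb; rw [coeff_monomial, if_neg hb]
      · intro h; exact absurd (Finset.mem_range.2 (by omega)) h
    · rw [Finset.sum_eq_zero]
      · symm
        apply Subtype.ext
        rw [hz (c1 l) 0 (h7.mono fun n hn => by
          rw [hc1]; apply coeff_eq_zero_of_natDegree_lt; rw [hn.2.2.2.2.2.2]; omega)]
        exact map_zero cr
      · intro b hb
        rw [Finset.mem_range] at hb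
        rw [coeff_monomial, if_neg (by omega)]
  have hcG2 : ∀ l, G2.coeff l = S.ga (c2 l) := by
    intro l
    rw [hG2, finsetSum_coeff]
    by_cases hl : l ≤ j
    · rw [Finset.sum_eq_single l]
      · rw [coeff_monomial, if_pos rfl]
      · intro b _ hb; rw [coeff_monomial, if_neg hb]
      · intro h; exact absurd (Finset.mem_range.2 (by omega)) h
    · rw [Finset.sum_eq_zero]
      · symm
        apply Subtype.ext
        rw [hz (c2 l) 0 (h7.mono fun n hn => by
          rw [hc2]; apply coeff_eq_zero_of_natDegree_lt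
          have := hn.2.2.2.2.1
          omega)]
        exact map_zero cr
      · intro b hb
        rw [Finset.mem_range] at hb
        rw [coeff_monomial, if_neg (by omega)]
  have hprod : g.map S.ga = G1 * G2 := by
    ext l
    rw [coeff_map, coeff_mul, S.ga_coe]
    simp only [hcG1, hcG2]
    rw [← S.kk.coe_subtype, map_sum]
    simp only [map_mul, Subfield.subtype_apply, S.ga_coe]
    rw [← S.KK.coe_subtype]
    simp only [← map_mul, ← map_sum]
    rw [cr_eq]
    refine h7.mono fun n hn => ?_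
    have e1 := congrArg (fun p : ℚ[X] => p.coeff l) hn.2.2.1
    simp only [coeff_map, S.rho_apply, coeff_mul] at e1
    have e2 : S.rho n (∑ x ∈ Finset.HasAntidiagonal.antidiagonal l, c1 x.1 * c2 x.2)
        = ∑ x ∈ Finset.HasAntidiagonal.antidiagonal l, (g1 n).coeff x.1 * (g2 n).coeff x.2 := by
      rw [map_sum]
      apply Finset.sum_congr rfl
      intro x _
      rw [map_mul, S.rho_apply, S.rho_apply, hc1, hc2]
    exact e1.trans e2.symm
  have hdegs : G1.natDegree = i ∧ G2.natDegree = j := by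
    have one_i : G1.coeff i ≠ 0 := by
      rw [hcG1]
      intro h0
      have h1 := congrArg (fun x : S.kk => (x : Om)) h0
      simp only [ZeroMemClass.coe_zero] at h1
      rw [S.ga_coe, cr_eq_zero] at h1
      obtain ⟨n, hn1, hn2⟩ := (h7.and h1).exists
      rw [hc1] at hn2
      have h3 := hn1.1
      rw [Monic, leadingCoeff, hn1.2.2.2.2.2.2, hn2] at h3
      exact zero_ne_one h3
    have one_j : G2.coeff j ≠ 0 := by
      rw [hcG2]
      intro h0
      have h1 := congrArg (fun x : S.kk => (x : Om)) h0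
      simp only [ZeroMemClass.coe_zero] at h1
      rw [S.ga_coe, cr_eq_zero] at h1
      obtain ⟨n, hn1, hn2⟩ := (h7.and h1).exists
      rw [hc2] at hn2
      have h3 := hn1.2.1
      have h4 : (g2 n).natDegree = j := by have := hn1.2.2.2.2.1; omega
      rw [Monic, leadingCoeff, h4, hn2] at h3
      exact zero_ne_one h3
    constructor
    · apply le_antisymm _ (le_natDegree_of_ne_zero one_i)
      rw [hG1]
      apply natDegree_sum_le_of_forall_le
      intro l hl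
      rw [Finset.mem_range] at hl
      exact (natDegree_monomial_le _).trans (by omega)
    · apply le_antisymm _ (le_natDegree_of_ne_zero one_j)
      rw [hG2]
      apply natDegree_sum_le_of_forall_le
      intro l hl
      rw [Finset.mem_range] at hl
      exact (natDegree_monomial_le _).trans (by omega)
  rcases hirr.isUnit_or_isUnit hprod with h | h
  · have := natDegree_eq_zero_of_isUnit h
    omega
  · have := natDegree_eq_zero_of_isUnit h
    omega

end Pool.Agent.Y910.G
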