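import Pool.Agent.Y910.G.G6
import Pool.Agent.Y68.Part1
import Pool.Agent.Y68.Part2

/-!
The model at infinity of a sequence of curves with integer points.
-/

open Polynomial Filter

namespace Pool.Agent.Y910.G

open Pool.Agent.H322R2 Pool.Agent.Y910.S

section ord

variable {Ω : Type*} [Field Ω] [LinearOrder Ω] [IsStrictOrderedRing Ω] (k : Subfield Ω) (u a : Ω)
  (hu : ∀ x ∈ k, x < |u|)

include hu

omit [IsStrictOrderedRing Ω] in
lemma natCast_lt (n : ℕ) : (n : Ω) < |u| := hu _ (natCast_mem k n)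

lemma adj_le (z : Ω) (hz : z ∈ Algebra.adjoin k {u}) : ∃ m : ℕ, |z| ≤ |u| ^ m := by
  have h1 : 1 ≤ |u| := by
    have := natCast_lt k u hu 1
    rw [Nat.cast_one] at this
    exact this.le
  have h2 : 2 ≤ |u| := by
    have := natCast_lt k u hu 2
    rw [Nat.cast_two] at this
    exact this.le
  induction hz using Algebra.adjoin_induction with
  | mem x hx =>
    rw [Set.mem_singleton_iff] at hx
    exact ⟨1, by rw [hx, pow_one]⟩
  | algebraMap r =>
    refine ⟨1, ?_⟩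
    rw [pow_one]
    have h3 := (hu _ r.2)
    have h4 := (hu _ (k.neg_mem r.2))
    show |(r : Ω)| ≤ |u|
    rw [abs_le]
    constructor <;> linarith
  | add x y _ _ hx hy =>
    obtain ⟨m, hm⟩ := hx
    obtain ⟨m', hm'⟩ := hy
    refine ⟨(m + m') + 1, (abs_add_le _ _).trans ?_⟩
    have e1 : |u| ^ m ≤ |u| ^ (m + m') := pow_le_pow_right₀ h1 (by omega)
    have e2 : |u| ^ m' ≤ |u| ^ (m + m') := pow_le_pow_right₀ h1 (by omega)
    have e3 : 0 ≤ |u| ^ (m + m') := by positivity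
    rw [pow_succ]
    nlinarith
  | mul x y _ _ hx hy =>
    obtain ⟨m, hm⟩ := hx
    obtain ⟨m', hm'⟩ := hy
    refine ⟨m + m', ?_⟩
    rw [abs_mul, pow_add]
    exact mul_le_mul hm hm' (abs_nonneg _) (by positivity)

lemma int_le (ha : IsIntegral (Algebra.adjoin k {u}) a) : ∃ m : ℕ, |a| ≤ |u| ^ m := by
  have h1 : 1 ≤ |u| := by
    have := natCast_lt k u hu 1
    rw [Nat.cast_one] at this
    exact this.le
  by_cases ha1 : |a| ≤ 1
  · exact ⟨0, by rw [pow_zero]; exact ha1⟩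
  push Not at ha1
  obtain ⟨p, hpm, hp⟩ := ha
  rw [eval₂_eq_sum_range, Finset.sum_range_succ, hpm.coeff_natDegree, map_one, one_mul] at hp
  choose m hm using fun i => adj_le k u hu _ (p.coeff i).2
  obtain ⟨M, hM⟩ : ∃ M, M = ∑ i ∈ Finset.range p.natDegree, m i := ⟨_, rfl⟩
  have hp1 : 1 ≤ p.natDegree := by
    by_contra h
    have h0 : p.natDegree = 0 := by omega
    rw [h0] at hp
    simp at hp
  refine ⟨M + 1, ?_⟩
  have h2 : a ^ p.natDegree = - ∑ i ∈ Finset.range p.natDegree, ((p.coeff i : Ω)) * a ^ i := by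
    rw [eq_neg_iff_add_eq_zero, add_comm]; exact hp
  have h3 : |a| ^ p.natDegree ≤ (p.natDegree * |u| ^ M) * |a| ^ (p.natDegree - 1) := by
    rw [← abs_pow, h2, abs_neg]
    refine (Finset.abs_sum_le_sum_abs _ _).trans ?_
    have h4 : ∀ i ∈ Finset.range p.natDegree, |(p.coeff i : Ω) * a ^ i|
        ≤ |u| ^ M * |a| ^ (p.natDegree - 1) := by
      intro i hi
      rw [abs_mul, abs_pow]
      apply mul_le_mul _ (pow_le_pow_right₀ ha1.le (by rw [Finset.mem_range] at hi; omega))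
        (by positivity) (by positivity)
      refine (hm i).trans (pow_le_pow_right₀ h1 ?_)
      rw [hM]
      exact Finset.single_le_sum (f := m) (fun _ _ => Nat.zero_le _) hi
    refine (Finset.sum_le_sum h4).trans ?_
    rw [Finset.sum_const, Finset.card_range, nsmul_eq_mul]
    apply le_of_eq; ring
  have h5 : |a| ^ p.natDegree = |a| * |a| ^ (p.natDegree - 1) := by
    rw [← pow_succ']; congr 1; omega
  rw [h5] at h3
  have h6 : 0 < |a| ^ (p.natDegree - 1) := by positivity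
  have h7 := le_of_mul_le_mul_right h3 h6
  refine h7.trans ?_
  rw [pow_succ']
  exact mul_le_mul_of_nonneg_right (natCast_lt k u hu _).le (by positivity)

end ord

namespace Dat

variable (Q : Dat)

/-- the model over the germ field, lifted to bounded sequences -/
theorem model : ∃ (N r : ℕ) (c : ℕ → ℕ → Q.S.KK) (g : Q.S.KK[X]) (Φ Ψ : Q.S.KK[X][X]),
    1 ≤ N ∧ 1 ≤ r ∧ (∀ i j, c i j ≠ 0 → j < N * r ∧ N * i + (N + 1) * j ≤ N * (N + 1) * r) ∧
    g.Monic ∧ g.natDegree = r ∧ (Ev fun n => Irreducible (g.map (Q.S.rho n))) ∧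
    (Ev fun n => Q.S.rho n (g.coeff 0) ≠ 0) ∧
    (∀ l < r, g.coeff l = c ((N + 1) * (r - l)) (N * l)) ∧
    e2 Q.S.gam Q.a Q.b (Ψ ^ (N * r) + ∑ j ∈ Finset.range (N * r),
      ∑ i ∈ Finset.range ((N + 1) * r + 1), C (C (c i j)) * Φ ^ i * Ψ ^ j) = 0 ∧
    (∃ A : Q.S.KK[X][X], A.Monic ∧ e2 Q.S.gam Q.a Q.b (e2 (cc _) Φ (C X) A) = 0) ∧
    (∃ A : Q.S.KK[X][X], A.Monic ∧ e2 Q.S.gam Q.a Q.b (e2 (cc _) Φ X A) = 0) ∧
    (∃ h : Q.S.KK[X], (Ev fun n => h.map (Q.S.rho n) ≠ 0) ∧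
      (∃ P, e2 Q.S.gam Q.a Q.b (eval₂RingHom (cc _) Φ h * C X - e2 (cc _) Φ Ψ P) = 0) ∧
      (∃ P, e2 Q.S.gam Q.a Q.b (eval₂RingHom (cc _) Φ h * X - e2 (cc _) Φ Ψ P) = 0)) ∧
    ∃ m : ℕ, 1 ≤ |e2 Q.S.gam Q.a Q.b Φ| ∧ |Q.a| ≤ |e2 Q.S.gam Q.a Q.b Φ| ^ m := by
  obtain ⟨s, τ, r, g, hs0, hs, hτ, hr, hgm, hgr, hgi, hg0, hgτ, h1, W0, h2⟩ :=
    Y68.alg_part1 Q.S.kk Q.a Q.b Q.ha Q.hb Q.hR
  obtain ⟨N, u, v, c, hN, hu, hv, huk, hc, hG, hgc, hia, hib, h, hh, hh0, hha, hhb⟩ :=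
    Y68.alg_part2 Q.S.kk Q.a Q.b Q.ha Q.hb s τ r g hs0 hs hτ hr hgm hgr hgi hg0 hgτ h1 W0 h2
  obtain ⟨Φ, hΦ⟩ := Q.S.adjoin_lift Q.a Q.b u hu
  obtain ⟨Ψ, hΨ⟩ := Q.S.adjoin_lift Q.a Q.b v hv
  obtain ⟨ct, hct⟩ : ∃ ct : ℕ → ℕ → Q.S.KK, ∀ i j, Q.S.ga (ct i j) = c i j ∧
      (c i j = 0 → ct i j = 0) := by
    have : ∀ i j, ∃ f : Q.S.KK, Q.S.ga f = c i j ∧ (c i j = 0 → f = 0) := by
      intro i j
      by_cases h0 : c i j = 0
      · exact ⟨0, by rw [h0, map_zero], fun _ => rfl⟩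
      · obtain ⟨f, hf⟩ := Q.S.ga_surj (c i j)
        exact ⟨f, hf, fun h => absurd h h0⟩
    choose ct hct using this
    exact ⟨ct, hct⟩
  have hctc : ∀ i j, Q.S.gam (ct i j) = (c i j : Om) := fun i j => by
    rw [← (hct i j).1]; rfl
  obtain ⟨gt, hgt⟩ : ∃ gt : Q.S.KK[X], gt = X ^ r + ∑ l ∈ Finset.range r,
      C (ct ((N + 1) * (r - l)) (N * l)) * X ^ l := ⟨_, rfl⟩
  have hdeg : (∑ l ∈ Finset.range r, C (ct ((N + 1) * (r - l)) (N * l)) * X ^ l).degree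
      < ((r : ℕ) : WithBot ℕ) := by
    rw [degree_lt_iff_coeff_zero]
    intro m hm
    rw [finsetSum_coeff]
    apply Finset.sum_eq_zero
    intro i hi
    rw [Finset.mem_range] at hi
    rw [coeff_C_mul_X_pow, if_neg (by omega)]
  have hgtm : gt.Monic := by rw [hgt]; exact monic_X_pow_add hdeg
  have hgtr : gt.natDegree = r := by
    rw [hgt, natDegree_add_eq_left_of_degree_lt (by rw [degree_X_pow]; exact hdeg),
      natDegree_X_pow]
  have hgtc : ∀ l < r, gt.coeff l = ct ((N + 1) * (r - l)) (N * l) := by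
    intro l hl
    rw [hgt, coeff_add, coeff_X_pow, if_neg (by omega), zero_add, finsetSum_coeff,
      Finset.sum_eq_single l]
    · rw [coeff_C_mul_X_pow, if_pos rfl]
    · intro b _ hb; rw [coeff_C_mul_X_pow, if_neg (by omega)]
    · intro h; exact absurd (Finset.mem_range.2 hl) h
  have hgmap : gt.map Q.S.ga = g := by
    ext l
    rw [coeff_map]
    rcases lt_trichotomy l r with hl | hl | hl
    · rw [hgtc l hl, (hct _ _).1, hgc l hl]
    · have e1 : gt.coeff l = 1 := by rw [hl, ← hgtr]; exact hgtm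
      have e2 : g.coeff l = 1 := by rw [hl, ← hgr]; exact hgm
      rw [e1, e2, map_one]
    · rw [coeff_eq_zero_of_natDegree_lt (by omega), coeff_eq_zero_of_natDegree_lt (by omega),
        map_zero]
  refine ⟨N, r, ct, gt, Φ, Ψ, hN, hr, ?_, hgtm, hgtr, ?_, ?_, hgtc, ?_, ?_, ?_, ?_, ?_⟩
  · intro i j hij
    apply hc
    intro h0
    exact hij ((hct i j).2 h0)
  · exact irr_lift Q.S r hr gt hgtm hgtr (by rw [hgmap]; exact hgi)
  · rw [ev_not]
    intro h0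
    apply hg0
    rw [← hgmap, coeff_map]
    apply Subtype.ext
    rw [Q.S.ga_coe, ← Q.S.gam_apply]
    exact Q.S.gam_eq_zero.2 h0
  · rw [map_add, map_pow, hΨ, ← hG]
    congr 1
    rw [map_sum]
    apply Finset.sum_congr rfl
    intro j _
    rw [map_sum]
    apply Finset.sum_congr rfl
    intro i _
    rw [map_mul, map_mul, map_pow, map_pow, e2_CC, hΦ, hΨ, hctc]
  · obtain ⟨A, hA, hA0⟩ := Q.S.integral_lift u Q.a hia
    refine ⟨A, hA, ?_⟩
    rw [e2_sub, hΦ, e2_CX, hA0]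
  · obtain ⟨A, hA, hA0⟩ := Q.S.integral_lift u Q.b hib
    refine ⟨A, hA, ?_⟩
    rw [e2_sub, hΦ, e2_X, hA0]
  · obtain ⟨ht, hht⟩ := Q.S.adjoin_lift1 u h hh
    have hcomp : (e2 Q.S.gam Q.a Q.b).comp (eval₂RingHom (cc _) Φ) = eval₂RingHom Q.S.gam u := by
      apply Polynomial.ringHom_ext
      · intro r
        simp
      · simp [hΦ]
    have hev : e2 Q.S.gam Q.a Q.b (eval₂RingHom (cc _) Φ ht) = h := by
      rw [← hht, ← hcomp]; rfl
    refine ⟨ht, ?_, ?_, ?_⟩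
    · rw [ev_not]
      intro h0
      apply hh0
      rw [← hht]
      -- all coefficients vanish along the ultrafilter
      rw [coe_eval₂RingHom, eval₂_eq_sum_range]
      apply Finset.sum_eq_zero
      intro i _
      have : Q.S.gam (ht.coeff i) = 0 := by
        rw [Q.S.gam_eq_zero]
        refine h0.mono fun n hn => ?_
        have := congrArg (fun p : ℚ[X] => p.coeff i) hn
        simpa using this
      rw [this, zero_mul]
    · obtain ⟨P, hP⟩ := Q.S.adjoin_lift u v _ hha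
      refine ⟨P, ?_⟩
      rw [map_sub, map_mul, hev, e2_CX, e2_sub, hΦ, hΨ, hP, sub_self]
    · obtain ⟨P, hP⟩ := Q.S.adjoin_lift u v _ hhb
      refine ⟨P, ?_⟩
      rw [map_sub, map_mul, hev, e2_X, e2_sub, hΦ, hΨ, hP, sub_self]
  · obtain ⟨m, hm⟩ := int_le Q.S.kk u Q.a huk hia
    refine ⟨m, ?_, ?_⟩
    · rw [hΦ]
      exact (huk 1 Q.S.kk.one_mem).le
    · rw [hΦ]; exact hm

end Dat

end Pool.Agent.Y910.G
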