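import Pool.Agent.Y910.G.G7

/-!
Existence of a model at infinity with polynomially bounded heights.
-/

open Polynomial Filter

namespace Pool.Agent.Y910.G

open Pool.Agent.H322R2 Pool.Agent.Y910.S

/-- a weighted model at infinity of the curve `F = 0` -/
structure Mod (F : ℤ[X][X]) (N r : ℕ) (c : ℕ → ℕ → ℚ) (g : ℚ[X]) (Φ Ψ : ℚ[X][X]) : Prop where
  hN : 1 ≤ N
  hr : 1 ≤ r
  hc : ∀ i j, c i j ≠ 0 → j < N * r ∧ N * i + (N + 1) * j ≤ N * (N + 1) * r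
  hgm : g.Monic
  hgr : g.natDegree = r
  hgi : Irreducible g
  hg0 : g.coeff 0 ≠ 0
  hgc : ∀ l < r, g.coeff l = c ((N + 1) * (r - l)) (N * l)
  hG : qz F ∣ Ψ ^ (N * r) + ∑ j ∈ Finset.range (N * r),
      ∑ i ∈ Finset.range ((N + 1) * r + 1), C (C (c i j)) * Φ ^ i * Ψ ^ j
  hA : ∃ A : ℚ[X][X], A.Monic ∧ qz F ∣ e2 (cc ℚ) Φ (C X) A
  hB : ∃ A : ℚ[X][X], A.Monic ∧ qz F ∣ e2 (cc ℚ) Φ X A
  hh : ∃ h : ℚ[X], h ≠ 0 ∧ (∃ P, qz F ∣ eval₂RingHom (cc ℚ) Φ h * C X - e2 (cc ℚ) Φ Ψ P) ∧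
    (∃ P, qz F ∣ eval₂RingHom (cc ℚ) Φ h * X - e2 (cc ℚ) Φ Ψ P)

/-- the full conclusion -/
def Good (M : ℕ) (T : ℕ) (F : ℤ[X][X]) (x y : ℤ) : Prop :=
  ∃ (N r : ℕ) (c : ℕ → ℕ → ℚ) (g : ℚ[X]) (Φ Ψ : ℚ[X][X]), Mod F N r c g Φ Ψ ∧ N ≤ M ∧ r ≤ M ∧
    (∀ i j, Ht (T ^ M) (c i j)) ∧
    (∃ D : ℕ, 0 < D ∧ D ≤ T ^ M ∧ (∃ z : ℤ, (D : ℚ) * e2 (RingHom.id ℚ) (x : ℚ) (y : ℚ) Φ = z) ∧
      ∃ z : ℤ, (D : ℚ) * e2 (RingHom.id ℚ) (x : ℚ) (y : ℚ) Ψ = z) ∧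
    1 ≤ |e2 (RingHom.id ℚ) (x : ℚ) (y : ℚ) Φ| ∧
    |(x : ℚ)| ≤ |e2 (RingHom.id ℚ) (x : ℚ) (y : ℚ) Φ| ^ M

lemma Good.mono {M M' T : ℕ} {F : ℤ[X][X]} {x y : ℤ} (hT : 1 ≤ T) (h : Good M T F x y)
    (hM : M ≤ M') : Good M' T F x y := by
  obtain ⟨N, r, c, g, Φ, Ψ, h1, h2, h3, h4, ⟨D, h5, h6, h7, h8⟩, h9, h10⟩ := h
  have hp : T ^ M ≤ T ^ M' := Nat.pow_le_pow_right hT hM
  exact ⟨N, r, c, g, Φ, Ψ, h1, h2.trans hM, h3.trans hM, fun i j => (h4 i j).mono hp,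
    ⟨D, h5, h6.trans hp, h7, h8⟩, h9, h10.trans (pow_le_pow_right₀ h9 hM)⟩

namespace Dat

variable (Q : Dat)

/-- transfer of one polynomial: denominators -/
lemma den (W : Q.S.KK[X][X]) : ∃ m : ℕ, ∀ n, ∃ D : ℕ, 0 < D ∧ D ≤ Q.S.T n ^ m ∧
    ∃ z : ℤ, (D : ℚ) * e2 (RingHom.id ℚ) (Q.x n : ℚ) (Q.y n : ℚ) (m2 (Q.S.rho n) W) = z := by
  obtain ⟨m, K, hc⟩ := Q.S.cle W
  refine ⟨m, fun n => ?_⟩
  obtain ⟨D, V, h1, h2, h3, h4, h5⟩ := hc n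
  refine ⟨D, h1, by exact_mod_cast h2, ev (Q.x n) (Q.y n) V, ?_⟩
  rw [← e2_id_qz, h5, map_mul, e2_CC]
  rfl

lemma m2_eval1 {R U : Type*} [CommRing R] [CommRing U] (f : R →+* U) (Φ : R[X][X]) (h : R[X]) :
    m2 f (eval₂RingHom (cc R) Φ h) = eval₂RingHom (cc U) (m2 f Φ) (h.map f) := by
  have : (m2 f).comp (eval₂RingHom (cc R) Φ)
      = (eval₂RingHom (cc U) (m2 f Φ)).comp (mapRingHom f) := by
    apply Polynomial.ringHom_ext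
    · intro r
      simp
    · simp
  exact congrArg (fun g : R[X] →+* U[X][X] => g h) this

theorem good : ∃ M : ℕ, Ev fun n => Good M (Q.S.T n) (Q.F n) (Q.x n) (Q.y n) := by
  obtain ⟨N, r, c, g, Φ, Ψ, hN, hr, hc, hgm, hgr, hgi, hg0, hgc, hG, ⟨A, hA, hA0⟩, ⟨B, hB, hB0⟩,
    ⟨h, hh, ⟨P1, hP1⟩, ⟨P2, hP2⟩⟩, m0, hu1, hu⟩ := Q.model
  obtain ⟨m1, hm1⟩ := Q.den Φ
  obtain ⟨m2', hm2⟩ := Q.den Ψ
  -- heights of the coefficients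
  obtain ⟨m3, hm3⟩ : ∃ m : ℕ, ∀ n i j, Ht (Q.S.T n ^ m) (Q.S.rho n (c i j)) := by
    choose m hm using fun i j => (c i j).2
    refine ⟨∑ i ∈ Finset.range ((N + 1) * r + 1), ∑ j ∈ Finset.range (N * r), m i j,
      fun n i j => ?_⟩
    by_cases h0 : c i j = 0
    · rw [h0, map_zero]
      exact Ht.zero (Q.S.one_le n _)
    · obtain ⟨h1, h2⟩ := hc i j h0
      have h3 : i < (N + 1) * r + 1 := by
        by_contra hcon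
        have h4 : (N + 1) * r + 1 ≤ i := by omega
        have h5 : N * ((N + 1) * r + 1) ≤ N * i := Nat.mul_le_mul_left _ h4
        have h6 : N * ((N + 1) * r + 1) = N * (N + 1) * r + N := by ring
        omega
      rw [Q.S.rho_apply]
      refine (hm i j n).mono (Nat.pow_le_pow_right (by have := Q.S.hT n; omega) ?_)
      refine le_trans ?_ (Finset.single_le_sum (f := fun i => ∑ j ∈ Finset.range (N * r), m i j)
        (fun _ _ => Nat.zero_le _) (Finset.mem_range.2 h3))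
      exact Finset.single_le_sum (f := m i) (fun _ _ => Nat.zero_le _) (Finset.mem_range.2 h1)
  refine ⟨N + r + m3 + (m1 + m2') + m0, ?_⟩
  have dG := Q.dvd_of_zero _ hG
  have dA := Q.dvd_of_zero _ hA0
  have dB := Q.dvd_of_zero _ hB0
  have dP1 := Q.dvd_of_zero _ hP1
  have dP2 := Q.dvd_of_zero _ hP2
  rw [ev_ab, cr_abs] at hu1 hu
  have hu1' : Ev fun n => 1 ≤ |e2 (RingHom.id ℚ) (Q.x n : ℚ) (Q.y n : ℚ) (m2 (Q.S.rho n) Φ)| := by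
    by_contra hcon
    rw [← ev_not] at hcon
    have h1 : cr (fun n => |e2 (RingHom.id ℚ) (Q.x n : ℚ) (Q.y n : ℚ) (m2 (Q.S.rho n) Φ)|)
        < 1 := by
      rw [← map_one cr, cr_lt]
      exact hcon.mono fun n hn => not_le.1 hn
    exact absurd h1 (not_lt.2 hu1)
  have hu' : Ev fun n => |(Q.x n : ℚ)|
      ≤ |e2 (RingHom.id ℚ) (Q.x n : ℚ) (Q.y n : ℚ) (m2 (Q.S.rho n) Φ)| ^ m0 := by
    by_contra hcon
    rw [← ev_not] at hcon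
    rw [a, cr_abs, ← map_pow] at hu
    refine absurd ?_ (not_lt.2 hu)
    rw [cr_lt]
    exact hcon.mono fun n hn => not_le.1 hn
  refine ((((hgi.and hg0).and (dG.and (dA.and dB))).and ((dP1.and dP2).and hh)).and
    (hu1'.and hu')).mono ?_
  rintro n ⟨⟨⟨⟨e1, e2'⟩, e3, e4, e5⟩, ⟨e6, e7⟩, e8⟩, e9, e10⟩
  have hT1 : 1 ≤ Q.S.T n := by have := Q.S.hT n; omega
  refine ⟨N, r, fun i j => Q.S.rho n (c i j), g.map (Q.S.rho n), m2 (Q.S.rho n) Φ,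
    m2 (Q.S.rho n) Ψ, ⟨hN, hr, ?_, hgm.map _, by rw [hgm.natDegree_map, hgr], e1,
      by rw [coeff_map]; exact e2', ?_, ?_, ⟨A.map (mapRingHom (Q.S.rho n)), hA.map _, ?_⟩,
      ⟨B.map (mapRingHom (Q.S.rho n)), hB.map _, ?_⟩, ⟨h.map (Q.S.rho n), e8, ⟨m2 (Q.S.rho n) P1, ?_⟩,
        ⟨m2 (Q.S.rho n) P2, ?_⟩⟩⟩, by omega, by omega, ?_, ?_, e9, ?_⟩
  · intro i j hij
    apply hc
    intro h0
    rw [h0, map_zero] at hij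
    exact hij rfl
  · intro l hl
    rw [coeff_map, hgc l hl]
  · have := e3
    simp only [map_add, map_pow, map_sum, map_mul, m2_CC] at this
    exact this
  · rw [m2_sub, m2_CX] at e4; exact e4
  · rw [m2_sub, m2_X] at e5; exact e5
  · rw [map_sub, map_mul, m2_sub, m2_eval1, m2_CX] at e6; exact e6
  · rw [map_sub, map_mul, m2_sub, m2_eval1, m2_X] at e7; exact e7
  · intro i j
    exact (hm3 n i j).mono (Nat.pow_le_pow_right hT1 (by omega))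
  · obtain ⟨D1, f1, f2, z1, f3⟩ := hm1 n
    obtain ⟨D2, f1', f2', z2, f3'⟩ := hm2 n
    refine ⟨D1 * D2, Nat.mul_pos f1 f1', ?_, ⟨D2 * z1, ?_⟩, ⟨D1 * z2, ?_⟩⟩
    · calc D1 * D2 ≤ Q.S.T n ^ m1 * Q.S.T n ^ m2' := Nat.mul_le_mul f2 f2'
        _ = Q.S.T n ^ (m1 + m2') := by rw [pow_add]
        _ ≤ _ := Nat.pow_le_pow_right hT1 (by omega)
    · push_cast
      rw [← f3]; ring
    · push_cast
      rw [← f3']; ring
  · refine e10.trans (pow_le_pow_right₀ e9 (by omega))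

end Dat

theorem soft (d : ℕ) (hd : 1 ≤ d) : ∃ M : ℕ, ∀ (T : ℕ) (_ : 2 ≤ T) (F : ℤ[X][X]), F.Monic →
    F.natDegree = d → Prime F → (∀ j, (F.coeff j).natDegree ≤ d) → pn (pn zn) F ≤ T →
    ∀ x y : ℤ, ev x y F = 0 → |x| ≤ (T : ℤ) ^ M ∨ Good M T F x y := by
  by_contra hcon
  push Not at hcon
  choose T hT F h1 h2 h3 h4 h5 x y h6 h7 h8 using hcon
  let Q : Dat := ⟨⟨T, hT⟩, d, F, x, y, hd, h1, h2, h3, h4, h5, h6, h7⟩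
  obtain ⟨M, hM⟩ := Q.good
  obtain ⟨n, hn1, hn2⟩ := (hM.and (ev_ge M)).exists
  exact h8 n (hn1.mono (by have := hT n; show 1 ≤ T n; omega) hn2)

end Pool.Agent.Y910.G
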