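import Pool.Agent.Y910.G.G8
import Pool.Agent.Y68.Place

/-!
The unique place at infinity of a curve with a weighted model.
-/

open Polynomial Filter

namespace Pool.Agent.Y910.G

open Pool.Agent.H322R2 Pool.Agent.Y910.S

section

variable {F : ℤ[X][X]} {N r : ℕ} {c : ℕ → ℕ → ℚ} {g : ℚ[X]} {Φ Ψ : ℚ[X][X]}
  (hM : Mod F N r c g Φ Ψ) {L : Type*} [Field L] [Algebra ℚ L] (α β : L) (hF : ev α β F = 0)

include hF in
lemma kill {w : ℚ[X][X]} (h : qz F ∣ w) : e2 (algebraMap ℚ L) α β w = 0 := by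
  obtain ⟨q, rfl⟩ := h
  rw [map_mul, e2_qz, hF, zero_mul]

lemma e2_eval1 (h : ℚ[X]) : e2 (algebraMap ℚ L) α β (eval₂RingHom (cc ℚ) Φ h)
    = aeval (e2 (algebraMap ℚ L) α β Φ) h := by
  have : (e2 (algebraMap ℚ L) α β).comp (eval₂RingHom (cc ℚ) Φ)
      = ((aeval (e2 (algebraMap ℚ L) α β Φ) : ℚ[X] →ₐ[ℚ] L) : ℚ[X] →+* L) := by
    apply Polynomial.ringHom_ext
    · intro r
      simp
    · simp
  exact congrArg (fun f : ℚ[X] →+* L => f h) this

lemma e2_mem (S : Subring L) (hS : ∀ q : ℚ, algebraMap ℚ L q ∈ S) {u v : L} (hu : u ∈ S)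
    (hv : v ∈ S) (w : ℚ[X][X]) : e2 (algebraMap ℚ L) u v w ∈ S := by
  have h : e2 (algebraMap ℚ L) u v = S.subtype.comp (e2 ((algebraMap ℚ L).codRestrict S hS)
      ⟨u, hu⟩ ⟨v, hv⟩) := by
    apply hom2_ext
    · intro r; simp
    · simp
    · simp
  rw [h]
  exact SetLike.coe_mem _

lemma e2_mem_adjoin (u v : L) (w : ℚ[X][X]) :
    e2 (algebraMap ℚ L) u v w ∈ Algebra.adjoin ℚ {u, v} :=
  e2_mem (Algebra.adjoin ℚ {u, v}).toSubring (fun q => (Algebra.adjoin ℚ {u, v}).algebraMap_mem q)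
    (Algebra.subset_adjoin (by simp)) (Algebra.subset_adjoin (by simp)) w

/-- a monic relation over `ℚ[u]` -/
lemma integral_of (u z : L) (A : ℚ[X][X]) (hA : A.Monic) (h : e2 (algebraMap ℚ L) u z A = 0)
    (S : Subring L) (hS : ∀ q : ℚ, algebraMap ℚ L q ∈ S) (hu : u ∈ S) : IsIntegral S z := by
  obtain ⟨f, hf⟩ : ∃ f : ℚ[X] →+* S, f = eval₂RingHom ((algebraMap ℚ L).codRestrict S hS)
    ⟨u, hu⟩ := ⟨_, rfl⟩
  refine ⟨A.map f, hA.map f, ?_⟩
  rw [eval₂_map]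
  have h1 : (algebraMap S L).comp f = eval₂RingHom (algebraMap ℚ L) u := by
    apply Polynomial.ringHom_ext
    · intro r
      rw [hf, RingHom.comp_apply, coe_eval₂RingHom, eval₂_C, coe_eval₂RingHom, eval₂_C]
      rfl
    · rw [hf, RingHom.comp_apply, coe_eval₂RingHom, eval₂_X, coe_eval₂RingHom, eval₂_X]
      rfl
  rw [h1]
  exact h

include hM hF in
theorem place (hα : Transcendental ℚ α)
    (hgen : ∀ z : L, ∃ w1 ∈ Algebra.adjoin ℚ {α, β}, ∃ w2 ∈ Algebra.adjoin ℚ {α, β},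
      w2 ≠ 0 ∧ w2 * z = w1) :
    ∃ A : ValuationSubring L, (∀ A' : ValuationSubring L,
      ((∀ q : ℚ, algebraMap ℚ L q ∈ A') ∧ ¬ (α ∈ A' ∧ β ∈ A')) ↔ A' = A) ∧
      Nonempty (IsLocalRing.ResidueField A ≃+* AdjoinRoot g) := by
  obtain ⟨u, hu⟩ : ∃ u, u = e2 (algebraMap ℚ L) α β Φ := ⟨_, rfl⟩
  obtain ⟨v, hv⟩ : ∃ v, v = e2 (algebraMap ℚ L) α β Ψ := ⟨_, rfl⟩
  obtain ⟨A1, hA1, hA1d⟩ := hM.hA
  obtain ⟨B1, hB1, hB1d⟩ := hM.hB
  have hA0 : e2 (algebraMap ℚ L) u α A1 = 0 := by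
    have h := kill α β hF hA1d
    rw [map_e2, e2_CX, ← hu] at h
    have hc : (e2 (algebraMap ℚ L) α β).comp (cc ℚ) = algebraMap ℚ L := by ext r; simp
    rw [hc] at h
    exact h
  have hB0 : e2 (algebraMap ℚ L) u β B1 = 0 := by
    have h := kill α β hF hB1d
    rw [map_e2, e2_X, ← hu] at h
    have hc : (e2 (algebraMap ℚ L) α β).comp (cc ℚ) = algebraMap ℚ L := by ext r; simp
    rw [hc] at h
    exact h
  have hut : Transcendental ℚ u := by
    intro hualg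
    apply hα
    have hui : IsIntegral ℚ u := hualg.isIntegral
    have : Algebra.IsIntegral ℚ (Algebra.adjoin ℚ {u}) :=
      Algebra.IsIntegral.adjoin (by
        intro x hx
        rw [Set.mem_singleton_iff] at hx
        rw [hx]; exact hui)
    have h1 : IsIntegral (Algebra.adjoin ℚ {u}) α :=
      integral_of u α A1 hA1 hA0 (Algebra.adjoin ℚ {u}).toSubring
        (fun q => (Algebra.adjoin ℚ {u}).algebraMap_mem q) (Algebra.subset_adjoin rfl)
    have h2 : IsIntegral ℚ α := isIntegral_trans (R := ℚ) (A := Algebra.adjoin ℚ {u}) α h1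
    exact h2.isAlgebraic
  -- the function field is generated by `u` and `v`
  obtain ⟨h, hh0, ⟨P1, hP1⟩, ⟨P2, hP2⟩⟩ := hM.hh
  have hhu : aeval u h ≠ 0 := by
    intro h0
    exact hut ⟨h, hh0, h0⟩
  have hcomp : (e2 (algebraMap ℚ L) α β).comp (cc ℚ) = algebraMap ℚ L := by ext r; simp
  have hmem_h : aeval u h ∈ Algebra.adjoin ℚ {u, v} := by
    apply Algebra.adjoin_mono (s := {u}) (by simp)
    exact aeval_mem_adjoin_singleton ℚ u
  have hP1' : aeval u h * α ∈ Algebra.adjoin ℚ {u, v} := by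
    have e1 := kill α β hF hP1
    rw [map_sub, map_mul, e2_eval1, e2_CX, map_e2, hcomp, ← hu, ← hv, sub_eq_zero] at e1
    rw [e1]
    exact e2_mem_adjoin u v P1
  have hP2' : aeval u h * β ∈ Algebra.adjoin ℚ {u, v} := by
    have e1 := kill α β hF hP2
    rw [map_sub, map_mul, e2_eval1, e2_X, map_e2, hcomp, ← hu, ← hv, sub_eq_zero] at e1
    rw [e1]
    exact e2_mem_adjoin u v P2
  have hadj : ∀ w ∈ Algebra.adjoin ℚ {α, β}, ∃ q ∈ Algebra.adjoin ℚ {u, v}, q ≠ 0 ∧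
      q * w ∈ Algebra.adjoin ℚ {u, v} := by
    intro w hw
    induction hw using Algebra.adjoin_induction with
    | mem x hx =>
      rcases hx with hx | hx
      · exact ⟨_, hmem_h, hhu, by rw [hx]; exact hP1'⟩
      · rw [Set.mem_singleton_iff] at hx
        exact ⟨_, hmem_h, hhu, by rw [hx]; exact hP2'⟩
    | algebraMap t =>
      exact ⟨1, Subalgebra.one_mem _, one_ne_zero, by
        rw [one_mul]; exact Subalgebra.algebraMap_mem _ t⟩
    | add x y _ _ hx hy =>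
      obtain ⟨q1, m1, n1, p1⟩ := hx
      obtain ⟨q2, m2, n2, p2⟩ := hy
      refine ⟨q1 * q2, Subalgebra.mul_mem _ m1 m2, mul_ne_zero n1 n2, ?_⟩
      have e : q1 * q2 * (x + y) = q2 * (q1 * x) + q1 * (q2 * y) := by ring
      rw [e]
      exact Subalgebra.add_mem _ (Subalgebra.mul_mem _ m2 p1) (Subalgebra.mul_mem _ m1 p2)
    | mul x y _ _ hx hy =>
      obtain ⟨q1, m1, n1, p1⟩ := hx
      obtain ⟨q2, m2, n2, p2⟩ := hy
      refine ⟨q1 * q2, Subalgebra.mul_mem _ m1 m2, mul_ne_zero n1 n2, ?_⟩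
      have e : q1 * q2 * (x * y) = (q1 * x) * (q2 * y) := by ring
      rw [e]
      exact Subalgebra.mul_mem _ p1 p2
  have hL : ∀ z : L, ∃ q ∈ Algebra.adjoin ℚ {u, v}, q ≠ 0 ∧ q * z ∈ Algebra.adjoin ℚ {u, v} := by
    intro z
    obtain ⟨w1, hw1, w2, hw2, hw20, hz⟩ := hgen z
    obtain ⟨q1, m1, n1, p1⟩ := hadj w1 hw1
    obtain ⟨q2, m2, n2, p2⟩ := hadj w2 hw2
    refine ⟨q1 * (q2 * w2), Subalgebra.mul_mem _ m1 p2, mul_ne_zero n1 (mul_ne_zero n2 hw20), ?_⟩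
    have e : q1 * (q2 * w2) * z = q2 * (q1 * w1) := by rw [← hz]; ring
    rw [e]
    exact Subalgebra.mul_mem _ m2 p1
  have hG0 : v ^ (N * r) + ∑ j ∈ Finset.range (N * r), ∑ i ∈ Finset.range ((N + 1) * r + 1),
      algebraMap ℚ L (c i j) * u ^ i * v ^ j = 0 := by
    have e1 := kill α β hF hM.hG
    simp only [map_add, map_pow, map_sum, map_mul, e2_CC] at e1
    rw [hu, hv]
    exact e1
  obtain ⟨A, hA, hres⟩ := Y68.place_unique u v N r hM.hN hM.hr c g hut hM.hc hG0 hM.hgm hM.hgr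
    hM.hgi hM.hg0 hM.hgc hL
  refine ⟨A, ?_, hres⟩
  intro A'
  rw [← hA A']
  apply and_congr_right
  intro hQ
  apply not_congr
  constructor
  · rintro ⟨h1, h2⟩
    rw [hu]
    exact e2_mem A'.toSubring hQ h1 h2 Φ
  · intro h1
    have hic : ∀ z : L, IsIntegral A'.toSubring z → z ∈ A' := by
      intro z hz
      have h2 : IsIntegral A' z := hz
      obtain ⟨y, hy⟩ := IsIntegrallyClosed.isIntegral_iff.1 h2
      rw [← hy]
      exact y.2
    exact ⟨hic α (integral_of u α A1 hA1 hA0 A'.toSubring hQ h1),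
      hic β (integral_of u β B1 hB1 hB0 A'.toSubring hQ h1)⟩

end

end Pool.Agent.Y910.G
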