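import Pool.Agent.Y910.G.P1
import Pool.Agent.Y910.S.K1
import Pool.Agent.Y660.SG.Edge

/-!
The integral weighted model.
-/

open Polynomial Finset

namespace Pool.Agent.Y910.G

open Pool.Agent.H322R2 Pool.Agent.Y910.S

/-- polynomial with prescribed coefficients -/
noncomputable def mkG (N r : ℕ) (z : ℕ → ℕ → ℤ) : ℤ[X][X] :=
  X ^ (N * r) + ∑ j ∈ range (N * r), C (∑ i ∈ range ((N + 1) * r + 1), C (z i j) * X ^ i) * X ^ j

section mkG

variable (N r : ℕ) (z : ℕ → ℕ → ℤ)

lemma mkG_deg : (∑ j ∈ range (N * r), C (∑ i ∈ range ((N + 1) * r + 1), C (z i j) * X ^ i)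
    * (X : ℤ[X][X]) ^ j).degree < ((N * r : ℕ) : WithBot ℕ) := by
  rw [degree_lt_iff_coeff_zero]
  intro m hm
  rw [finsetSum_coeff]
  apply Finset.sum_eq_zero
  intro i hi
  rw [Finset.mem_range] at hi
  rw [coeff_C_mul_X_pow, if_neg (by omega)]

lemma mkG_monic : (mkG N r z).Monic := monic_X_pow_add (mkG_deg N r z)

lemma mkG_natDegree : (mkG N r z).natDegree = N * r := by
  rw [mkG, natDegree_add_eq_left_of_degree_lt (by rw [degree_X_pow]; exact mkG_deg N r z),
    natDegree_X_pow]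

lemma mkG_coeff_lt (j : ℕ) (hj : j < N * r) :
    (mkG N r z).coeff j = ∑ i ∈ range ((N + 1) * r + 1), C (z i j) * X ^ i := by
  rw [mkG, coeff_add, coeff_X_pow, if_neg (by omega), zero_add, finsetSum_coeff,
    Finset.sum_eq_single j]
  · rw [coeff_C_mul_X_pow, if_pos rfl]
  · intro b _ hb; rw [coeff_C_mul_X_pow, if_neg (by omega)]
  · intro h; exact absurd (Finset.mem_range.2 hj) h

lemma mkG_coeff_coeff (i j : ℕ) (hj : j < N * r) :
    ((mkG N r z).coeff j).coeff i = if i < (N + 1) * r + 1 then z i j else 0 := by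
  rw [mkG_coeff_lt N r z j hj, finsetSum_coeff]
  split_ifs with h
  · rw [Finset.sum_eq_single i]
    · rw [coeff_C_mul_X_pow, if_pos rfl]
    · intro b _ hb; rw [coeff_C_mul_X_pow, if_neg (by omega)]
    · intro h'; exact absurd (Finset.mem_range.2 h) h'
  · apply Finset.sum_eq_zero
    intro b hb
    rw [Finset.mem_range] at hb
    rw [coeff_C_mul_X_pow, if_neg (by omega)]

lemma mkG_coeff_top : (mkG N r z).coeff (N * r) = 1 := by
  have := mkG_monic N r z
  rw [Monic, leadingCoeff, mkG_natDegree] at this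
  exact this

lemma ev_mkG {U : Type*} [CommRing U] (a b : U) : ev a b (mkG N r z)
    = b ^ (N * r) + ∑ j ∈ range (N * r), ∑ i ∈ range ((N + 1) * r + 1),
      (z i j : U) * a ^ i * b ^ j := by
  rw [mkG, map_add, map_pow, ev_X, map_sum]
  congr 1
  apply Finset.sum_congr rfl
  intro j _
  rw [map_mul, map_pow, ev_X, ev_C, map_sum, Finset.sum_mul]
  apply Finset.sum_congr rfl
  intro i _
  rw [map_mul, map_pow, evf_X, evf_C]

lemma pn_mkG (B : ℝ) (hz : ∀ i j, |(z i j : ℝ)| ≤ B) :
    pn (pn zn) (mkG N r z) ≤ 1 + (N * r : ℕ) * (((N + 1) * r + 1 : ℕ) * B) := by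
  rw [mkG]
  have h1 : pn (pn zn) ((X : ℤ[X][X]) ^ (N * r)) = 1 := by
    rw [X_pow_eq_monomial, pn_monomial, pn_one, zn_apply]; simp
  refine (map_add_le_add _ _ _).trans ?_
  rw [h1]
  apply add_le_add le_rfl
  refine (seminorm_sum_le _ _ _).trans ?_
  have h2 : ∀ j ∈ range (N * r), pn (pn zn) (C (∑ i ∈ range ((N + 1) * r + 1),
      C (z i j) * X ^ i) * (X : ℤ[X][X]) ^ j) ≤ ((N + 1) * r + 1 : ℕ) * B := by
    intro j _
    rw [C_mul_X_pow_eq_monomial, pn_monomial]
    refine (seminorm_sum_le _ _ _).trans ?_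
    have h3 : ∀ i ∈ range ((N + 1) * r + 1), pn zn (C (z i j) * (X : ℤ[X]) ^ i) ≤ B := by
      intro i _
      rw [C_mul_X_pow_eq_monomial, pn_monomial, zn_apply]
      exact hz i j
    refine (Finset.sum_le_sum h3).trans ?_
    rw [Finset.sum_const, Finset.card_range, nsmul_eq_mul]
  refine (Finset.sum_le_sum h2).trans ?_
  rw [Finset.sum_const, Finset.card_range, nsmul_eq_mul]

end mkG

/-- scaling the roots preserves irreducibility -/
lemma irr_scale {g : ℚ[X]} (hg : Irreducible g) (s : ℚ) (hs : s ≠ 0) :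
    Irreducible (scaleRoots g s) := by
  have hinv : Invertible s := invertibleOfNonzero hs
  have hinv' : Invertible s⁻¹ := invertibleOfNonzero (inv_ne_zero hs)
  have h1 : scaleRoots g s = C (s ^ g.natDegree) * (algEquivCMulXAddC (s⁻¹ : ℚ) 0) g := by
    ext l
    have hcoef : ∀ b, ((C (s⁻¹ : ℚ) * X) ^ b).coeff l = if l = b then (s⁻¹) ^ b else 0 := by
      intro b
      rw [mul_pow, ← C_pow, coeff_C_mul, coeff_X_pow]
      split_ifs <;> simp
    rw [coeff_scaleRoots, algEquivCMulXAddC_apply, map_zero, add_zero, coeff_C_mul,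
      aeval_eq_sum_range, finsetSum_coeff]
    simp only [coeff_smul, hcoef, smul_eq_mul]
    by_cases hl : l ≤ g.natDegree
    · rw [Finset.sum_eq_single l]
      · rw [if_pos rfl, inv_pow]
        have h2 : s ^ g.natDegree = s ^ (g.natDegree - l) * s ^ l := by
          rw [← pow_add]; congr 1; omega
        rw [h2]
        field_simp
      · intro b _ hb; rw [if_neg (by omega)]; simp
      · intro h; exact absurd (Finset.mem_range.2 (by omega)) h
    · rw [coeff_eq_zero_of_natDegree_lt (by omega), zero_mul, Finset.sum_eq_zero, mul_zero]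
      intro b hb
      rw [Finset.mem_range] at hb
      rw [if_neg (by omega)]; simp
  rw [h1]
  have h2 : IsUnit (C (s ^ g.natDegree) : ℚ[X]) := by
    rw [isUnit_C]; exact (isUnit_iff_ne_zero.2 (pow_ne_zero _ hs))
  rw [irreducible_isUnit_mul h2]
  exact (MulEquiv.irreducible_iff (algEquivCMulXAddC (s⁻¹ : ℚ) 0).toMulEquiv).2 hg

end Pool.Agent.Y910.G
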